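import Pool.Agent.H44.HawkC

open MeasureTheory Filter Topology
open scoped ENNReal

namespace Pool.Agent.H44.Hawk

/-- from the multiplier to the chain term -/
def F (first : Bool) (v : ℕ) : ℕ := if first then v - 1 else v + 1

lemma iterate_step (first : Bool) {a : ℕ} (ha : 1 ≤ a) (i : ℕ) :
    (step first)^[i] (F first a) = F first (2 ^ i * a) := by
  induction i with
  | zero => simp
  | succ i ih =>
    rw [Function.iterate_succ_apply', ih]
    have h1 : 1 ≤ 2 ^ i * a := Nat.mul_pos (by positivity) ha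
    have h2 : 2 ^ (i + 1) * a = 2 * (2 ^ i * a) := by rw [pow_succ]; ring
    rw [h2]
    generalize 2 ^ i * a = v at *
    cases first
    · simp only [step, F, Bool.false_eq_true, if_false]; omega
    · simp only [step, F, if_true]; omega

lemma F_inj (first : Bool) {v w : ℕ} (hv : 1 ≤ v) (hw : 1 ≤ w) (h : F first v = F first w) :
    v = w := by
  cases first
  · simp only [F, Bool.false_eq_true, if_false] at h; omega
  · simp only [F, if_true] at h; omega

lemma F_le (first : Bool) (v : ℕ) : F first v ≤ v + 1 := by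
  cases first
  · simp [F]
  · simp only [F, if_true]; omega

lemma le_F (first : Bool) (v : ℕ) : v ≤ F first v + 1 := by
  cases first
  · simp only [F, Bool.false_eq_true, if_false]; omega
  · simp only [F, if_true]; omega

lemma exists_mult (first : Bool) {n : ℕ} (hn : 2 ≤ n) : ∃ a, 1 ≤ a ∧ F first a = n ∧
    (first = true → 3 ≤ a) := by
  cases first
  · exact ⟨n - 1, by omega, by simp only [F, Bool.false_eq_true, if_false]; omega, by simp⟩
  · exact ⟨n + 1, by omega, by simp [F], fun _ => by omega⟩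

lemma two_pow_le_term (first : Bool) {n : ℕ} (hn : 2 ≤ n) (i : ℕ) :
    2 ^ i ≤ (step first)^[i] n := by
  obtain ⟨a, ha, rfl, h3⟩ := exists_mult first hn
  rw [iterate_step first ha]
  cases first
  · simp only [F, Bool.false_eq_true, if_false]; nlinarith [Nat.pos_of_ne_zero (pow_ne_zero i (two_ne_zero (α := ℕ)))]
  · simp only [F, if_true]
    have := h3 rfl
    have h4 := Nat.pos_of_ne_zero (pow_ne_zero i (two_ne_zero (α := ℕ)))
    have h5 : 2 ^ i * 3 ≤ 2 ^ i * a := Nat.mul_le_mul_left _ this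
    omega

lemma two_pow_mul_inj {A a b i j : ℕ} (ha1 : A ≤ a) (ha2 : a < 2 * A) (hb1 : A ≤ b)
    (hb2 : b < 2 * A) (h : 2 ^ i * a = 2 ^ j * b) : i = j ∧ a = b := by
  have key : ∀ {a b i j : ℕ}, A ≤ a → a < 2 * A → A ≤ b → b < 2 * A →
      2 ^ i * a = 2 ^ j * b → ¬ i < j := by
    intro a b i j ha1 ha2 hb1 hb2 h hij
    obtain ⟨d, rfl⟩ := Nat.exists_eq_add_of_lt hij
    have h1 : 2 ^ (i + d + 1) * b = 2 ^ i * (2 ^ d * 2 * b) := by ring
    rw [h1] at h
    have h2 := Nat.eq_of_mul_eq_mul_left (by positivity) h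
    have h3 : 1 ≤ 2 ^ d := Nat.one_le_two_pow
    nlinarith
  have h1 := key ha1 ha2 hb1 hb2 h
  have h2 := key hb1 hb2 ha1 ha2 h.symm
  have h3 : i = j := by omega
  subst h3
  exact ⟨rfl, Nat.eq_of_mul_eq_mul_left (by positivity) h⟩

lemma term_injective (first : Bool) {n : ℕ} (hn : 2 ≤ n) :
    Function.Injective (fun i => (step first)^[i] n) := by
  obtain ⟨a, ha, rfl, -⟩ := exists_mult first hn
  intro i j h
  simp only [iterate_step first ha] at h
  have h1 := F_inj first (Nat.mul_pos (by positivity) ha) (Nat.mul_pos (by positivity) ha) h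
  exact (two_pow_mul_inj (A := a) le_rfl (by omega) le_rfl (by omega) h1).1

lemma cyl_prob {t : ℕ → ℕ} (ht : Function.Injective t) (S : Finset ℕ) (c : ℕ → ℝ)
    (hc0 : ∀ i ∈ S, 0 ≤ c i) (hc1 : ∀ i ∈ S, c i ≤ 1) :
    uniforms {u | ∀ i ∈ S, u (t i) < c i} = ∏ i ∈ S, ENNReal.ofReal (c i) := by
  have h1 := Measure.map_infinitePi_infinitePi_of_inj (P := fun _ : ℕ => unif) ht
  have h2 : {u : ℕ → ℝ | ∀ i ∈ S, u (t i) < c i} =
      (fun (u : ℕ → ℝ) i => u (t i)) ⁻¹' (Set.pi S (fun i => Set.Iio (c i))) := by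
    ext u; simp
  have hm : Measurable (fun (u : ℕ → ℝ) i => u (t i)) := by fun_prop
  rw [h2]
  have h3 : uniforms ((fun (u : ℕ → ℝ) i => u (t i)) ⁻¹' (Set.pi S (fun i => Set.Iio (c i)))) =
    (Measure.map (fun (u : ℕ → ℝ) i => u (t i)) (Measure.infinitePi fun _ : ℕ => unif))
      (Set.pi S (fun i => Set.Iio (c i))) := by
    rw [Measure.map_apply hm (MeasurableSet.pi S.countable_toSet fun i _ => measurableSet_Iio)]
    rfl
  rw [h3, h1, Measure.infinitePi_pi _ (fun i _ => measurableSet_Iio)]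
  exact Finset.prod_congr rfl fun i hi => unif_Iio (hc0 i hi) (hc1 i hi)

/-- upper bound event -/
lemma upper_prob (first : Bool) (i₀ k N : ℕ) (hi₀ : 15 ≤ i₀) :
    uniforms {u | ∃ n ≤ N, 2 ≤ n ∧ ∀ i ∈ Finset.Ico i₀ k, u ((step first)^[i] n) < 15 / (i : ℝ)} ≤
      (N + 1 : ℕ) * ENNReal.ofReal (∏ i ∈ Finset.Ico i₀ k, (15 / (i : ℝ))) := by
  have hsub : {u : ℕ → ℝ | ∃ n ≤ N, 2 ≤ n ∧ ∀ i ∈ Finset.Ico i₀ k,
      u ((step first)^[i] n) < 15 / (i : ℝ)} ⊆
      ⋃ n ∈ (Finset.range (N + 1)).filter (fun n => 2 ≤ n),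
        {u | ∀ i ∈ Finset.Ico i₀ k, u ((step first)^[i] n) < 15 / (i : ℝ)} := by
    rintro u ⟨n, hn, h2, h⟩
    simp only [Set.mem_iUnion]
    exact ⟨n, by simp only [Finset.mem_filter, Finset.mem_range]; omega, h⟩
  refine (measure_mono hsub).trans ((measure_biUnion_finset_le _ _).trans ?_)
  have h1 : ∀ n ∈ (Finset.range (N + 1)).filter (fun n => 2 ≤ n),
      uniforms {u | ∀ i ∈ Finset.Ico i₀ k, u ((step first)^[i] n) < 15 / (i : ℝ)} =
      ENNReal.ofReal (∏ i ∈ Finset.Ico i₀ k, (15 / (i : ℝ))) := by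
    intro n hn
    simp only [Finset.mem_filter] at hn
    rw [cyl_prob (term_injective first hn.2) (Finset.Ico i₀ k) (fun i => 15 / (i : ℝ))
      (fun i _ => by positivity)]
    · rw [ENNReal.ofReal_prod_of_nonneg (fun i _ => by positivity)]
    · intro i hi
      rw [Finset.mem_Ico] at hi
      have : (15 : ℝ) ≤ i := by
        have : 15 ≤ i := by omega
        exact_mod_cast this
      rw [div_le_one (by linarith)]
      exact this
  rw [Finset.sum_congr rfl h1, Finset.sum_const, nsmul_eq_mul]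
  gcongr
  refine (Finset.card_filter_le _ _).trans ?_
  simp

/-- lower bound event: probability that no chain starts in a block -/
lemma lower_prob (first : Bool) (A k : ℕ) (_hA : 1 ≤ A) {p : ℝ} (hp0 : 0 ≤ p) (hp1 : p ≤ 1) :
    uniforms {u | ∀ b : Fin A, ∃ i : Fin k,
      ¬ u ((step first)^[(i : ℕ)] (F first (A + (b : ℕ)))) < p} ≤
      ENNReal.ofReal ((1 - p ^ k) ^ A) := by
  classical
  let f : Fin A × Fin k → ℕ := fun q => (step first)^[(q.2 : ℕ)] (F first (A + (q.1 : ℕ)))
  have hf : Function.Injective f := by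
    rintro ⟨b, i⟩ ⟨b', i'⟩ h
    simp only [f] at h
    rw [iterate_step first (by omega), iterate_step first (by omega)] at h
    have h1 := F_inj first (Nat.mul_pos (by positivity) (by omega))
      (Nat.mul_pos (by positivity) (by omega)) h
    have h2 := two_pow_mul_inj (A := A) (by omega) (by omega) (by omega) (by omega) h1
    ext
    · simp only; omega
    · simp only; exact h2.1
  have h1 := Measure.map_infinitePi_infinitePi_of_inj (P := fun _ : ℕ => unif) hf
  have hm : Measurable (fun (u : ℕ → ℝ) q => u (f q)) := by fun_prop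
  have h2 := Measure.infinitePi_map_curry (ι := Fin A) (κ := Fin k) (X := ℝ) (fun _ _ => unif)
  -- the target set in the curried space
  let T : Set (Fin k → ℝ) := (Set.pi ((Finset.univ : Finset (Fin k)) : Set (Fin k))
    (fun _ => Set.Iio p))ᶜ
  have hTm : MeasurableSet T := (MeasurableSet.pi (Finset.univ : Finset (Fin k)).countable_toSet
    fun i _ => measurableSet_Iio).compl
  have hT : (Measure.infinitePi fun _ : Fin k => unif) T = ENNReal.ofReal (1 - p ^ k) := by
    simp only [T]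
    rw [prob_compl_eq_one_sub (MeasurableSet.pi (Finset.univ : Finset (Fin k)).countable_toSet
      fun i _ => measurableSet_Iio), Measure.infinitePi_pi _ (fun i _ => measurableSet_Iio)]
    simp only [unif_Iio hp0 hp1, Finset.prod_const, Finset.card_univ, Fintype.card_fin]
    rw [← ENNReal.ofReal_pow hp0, ← ENNReal.ofReal_one, ENNReal.ofReal_sub _ (pow_nonneg hp0 k)]
  have hset : {u : ℕ → ℝ | ∀ b : Fin A, ∃ i : Fin k,
      ¬ u ((step first)^[(i : ℕ)] (F first (A + (b : ℕ)))) < p} =
      (fun (u : ℕ → ℝ) q => u (f q)) ⁻¹' ((MeasurableEquiv.curry (Fin A) (Fin k) ℝ) ⁻¹'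
        (Set.pi ((Finset.univ : Finset (Fin A)) : Set (Fin A)) (fun _ => T))) := by
    ext u
    simp only [Set.mem_preimage, T, Set.mem_pi, Finset.coe_univ, Set.mem_univ, forall_true_left,
      Set.mem_compl_iff, Set.mem_Iio, not_forall]
    rfl
  have hmT : MeasurableSet (Set.pi ((Finset.univ : Finset (Fin A)) : Set (Fin A))
      (fun _ => T)) := MeasurableSet.pi (Finset.univ : Finset (Fin A)).countable_toSet
        fun i _ => hTm
  rw [hset]
  have h3 : uniforms ((fun (u : ℕ → ℝ) q => u (f q)) ⁻¹' ((MeasurableEquiv.curry (Fin A) (Fin k) ℝ) ⁻¹'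
        (Set.pi ((Finset.univ : Finset (Fin A)) : Set (Fin A)) (fun _ => T)))) =
      (Measure.map (MeasurableEquiv.curry (Fin A) (Fin k) ℝ)
      (Measure.map (fun (u : ℕ → ℝ) q => u (f q)) (Measure.infinitePi fun _ : ℕ => unif)))
        (Set.pi ((Finset.univ : Finset (Fin A)) : Set (Fin A)) (fun _ => T)) := by
    rw [Measure.map_apply (MeasurableEquiv.measurable _) hmT, Measure.map_apply hm
      ((MeasurableEquiv.measurable _) hmT)]
    rfl
  rw [h3, h1, h2, Measure.infinitePi_pi _ (fun _ _ => hTm)]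
  simp only [hT, Finset.prod_const, Finset.card_univ, Fintype.card_fin]
  rw [ENNReal.ofReal_pow]
  linarith [pow_le_one₀ hp0 hp1 (n := k)]

end Pool.Agent.H44.Hawk
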