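import Mathlib

/-!
# The Hawkins random sieve and Cunningham chains inside it

The Hawkins random sieve: the numbers `2, 3, 4, ...` are examined in turn, and `n` is declared to
be a random prime with conditional probability `∏ (1 - 1/p)`, the product being over the random
primes `p < n` found so far.  We realise it from a sequence `u` of independent uniform variables on
`[0,1]`: the number `n ≥ 2` is a random prime iff `u n < survival u n`.
-/

open MeasureTheory

namespace Pool.Agent.H44.Hawk

/-- The law of a sequence of independent uniform random variables on `[0,1]`. -/
noncomputable def uniforms : Measure (ℕ → ℝ) :=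
  Measure.infinitePi fun _ : ℕ => (volume.restrict (Set.Icc (0 : ℝ) 1) : Measure ℝ)

/-- `survival u n` is the product of `1 - 1/p` over the random primes `p < n`. -/
noncomputable def survival (u : ℕ → ℝ) : ℕ → ℝ
  | 0 => 1
  | n + 1 => if 2 ≤ n ∧ u n < survival u n then survival u n * (1 - 1 / (n : ℝ)) else survival u n

/-- The set of Hawkins random primes. -/
def randomPrimes (u : ℕ → ℝ) : Set ℕ := {n | 2 ≤ n ∧ u n < survival u n}

/-- One step of a Cunningham chain, of the first kind (`true`) or of the second kind (`false`). -/
def step (first : Bool) (n : ℕ) : ℕ := if first then 2 * n + 1 else 2 * n - 1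

/-- The `k` numbers `n, step n, step (step n), ...` all belong to `A`. -/
def HasChain (A : Set ℕ) (first : Bool) (n k : ℕ) : Prop := ∀ i < k, (step first)^[i] n ∈ A

/-- The largest length of a Cunningham chain in `A` with starting point at most `x`. -/
noncomputable def longest (A : Set ℕ) (first : Bool) (x : ℕ) : ℕ :=
  sSup {k | ∃ n ≤ x, HasChain A first n k}

end Pool.Agent.H44.Hawk
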