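import Pool.Agent.H44.HawkD

open MeasureTheory Filter Topology
open scoped ENNReal

namespace Pool.Agent.H44.Hawk

lemma tendsto_log_div_self : Tendsto (fun l : ℝ => Real.log l / l) atTop (𝓝 0) :=
  Real.isLittleO_log_id_atTop.tendsto_div_nhds_zero

lemma tendsto_const_div_self (C : ℝ) : Tendsto (fun l : ℝ => C / l) atTop (𝓝 0) :=
  tendsto_const_nhds.div_atTop tendsto_id

lemma tendsto_const_div_log (C : ℝ) : Tendsto (fun l : ℝ => C / Real.log l) atTop (𝓝 0) :=
  tendsto_const_nhds.div_atTop Real.tendsto_log_atTop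

lemma tendsto_loglog_div_log :
    Tendsto (fun l : ℝ => Real.log (Real.log l) / Real.log l) atTop (𝓝 0) :=
  tendsto_log_div_self.comp Real.tendsto_log_atTop

lemma asym1 {ε : ℝ} (hε : 0 < ε) (C : ℝ) : ∀ᶠ l : ℝ in atTop,
    l + C + 4 * ((1 + ε) * l / Real.log l + 2) -
      ((1 + ε) * l / Real.log l) * Real.log ((1 + ε) * l / Real.log l) ≤ -(ε / 2) * l := by
  have h : Tendsto (fun l : ℝ => 1 + C / l + 4 * ((1 + ε) / Real.log l + 2 / l) -
      (1 + ε) * (Real.log (1 + ε) / Real.log l + 1 - Real.log (Real.log l) / Real.log l))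
      atTop (𝓝 (1 + 0 + 4 * (0 + 0) - (1 + ε) * (0 + 1 - 0))) := by
    refine ((tendsto_const_nhds.add (tendsto_const_div_self C)).add
      (((tendsto_const_div_log _).add (tendsto_const_div_self _)).const_mul 4)).sub
      (Tendsto.const_mul _ (((tendsto_const_div_log _).add tendsto_const_nhds).sub
        tendsto_loglog_div_log))
  have h2 : (1 + 0 + 4 * (0 + 0) - (1 + ε) * (0 + 1 - 0) : ℝ) < -(ε / 2) := by linarith
  have hl := Real.tendsto_log_atTop
  filter_upwards [h.eventually_lt_const h2, eventually_gt_atTop 0,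
    hl.eventually_gt_atTop 0] with l h3 h4 h5
  have e1 : Real.log ((1 + ε) * l / Real.log l) =
      Real.log (1 + ε) + Real.log l - Real.log (Real.log l) := by
    rw [Real.log_div (by positivity) h5.ne', Real.log_mul (by positivity) h4.ne']
  rw [e1]
  have e2 : l + C + 4 * ((1 + ε) * l / Real.log l + 2) -
      ((1 + ε) * l / Real.log l) * (Real.log (1 + ε) + Real.log l - Real.log (Real.log l)) =
      l * (1 + C / l + 4 * ((1 + ε) / Real.log l + 2 / l) -
      (1 + ε) * (Real.log (1 + ε) / Real.log l + 1 - Real.log (Real.log l) / Real.log l)) := by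
    generalize Real.log (Real.log l) = a
    generalize Real.log (1 + ε) = b
    have h6 := h5.ne'
    have h7 := h4.ne'
    field_simp
  rw [e2]
  nlinarith

lemma asym2 {ε : ℝ} (hε : 0 < ε) : ∀ᶠ l : ℝ in atTop,
    (ε / 2) * l ≤ l - 2 * Real.log 2 -
      ((1 - ε) * l / Real.log l + 1) * (Real.log 22 + Real.log l) := by
  have h : Tendsto (fun l : ℝ => 1 - 2 * Real.log 2 / l -
      ((1 - ε) * (Real.log 22 / Real.log l + 1) + (Real.log 22 / l + Real.log l / l)))
      atTop (𝓝 (1 - 0 - ((1 - ε) * (0 + 1) + (0 + 0)))) := by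
    refine (tendsto_const_nhds.sub (tendsto_const_div_self _)).sub
      ((Tendsto.const_mul _ ((tendsto_const_div_log _).add tendsto_const_nhds)).add
        ((tendsto_const_div_self _).add tendsto_log_div_self))
  have h2 : ε / 2 < (1 - 0 - ((1 - ε) * (0 + 1) + (0 + 0)) : ℝ) := by linarith
  have hl := Real.tendsto_log_atTop
  filter_upwards [h.eventually_const_lt h2, eventually_gt_atTop 0,
    hl.eventually_gt_atTop 0] with l h3 h4 h5
  have e2 : l - 2 * Real.log 2 -
      ((1 - ε) * l / Real.log l + 1) * (Real.log 22 + Real.log l) =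
      l * (1 - 2 * Real.log 2 / l -
      ((1 - ε) * (Real.log 22 / Real.log l + 1) + (Real.log 22 / l + Real.log l / l))) := by
    generalize Real.log 2 = b
    generalize Real.log 22 = a
    have h6 := h5.ne'
    have h7 := h4.ne'
    field_simp
  rw [e2]
  nlinarith

lemma asym3 (c : ℝ) : ∀ᶠ l : ℝ in atTop, c * l / Real.log l + 1 ≤ l := by
  have h : Tendsto (fun l : ℝ => c / Real.log l + 1 / l) atTop (𝓝 (0 + 0)) :=
    (tendsto_const_div_log _).add (tendsto_const_div_self _)
  have h2 : (0 + 0 : ℝ) < 1 := by norm_num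
  filter_upwards [h.eventually_lt_const h2, eventually_gt_atTop 0] with l h3 h4
  have : c * l / Real.log l + 1 = l * (c / Real.log l + 1 / l) := by
    have := h4.ne'
    by_cases h5 : Real.log l = 0
    · simp [h5]; field_simp
    · field_simp
  rw [this]
  nlinarith

lemma tendsto_self_div_log : Tendsto (fun l : ℝ => l / Real.log l) atTop atTop := by
  have h := Real.tendsto_exp_div_pow_atTop 1
  have h2 := h.comp Real.tendsto_log_atTop
  refine h2.congr' ?_
  filter_upwards [eventually_gt_atTop 0] with l hl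
  simp [Real.exp_log hl]

lemma asym4 {c : ℝ} (hc : 0 < c) : ∀ᶠ l : ℝ in atTop, 1 ≤ c * l / Real.log l := by
  filter_upwards [tendsto_self_div_log.eventually_ge_atTop (1 / c)] with l h
  rw [mul_div_assoc]
  rwa [div_le_iff₀' hc] at h

/-- `ell j = log (2^(j^2))` -/
noncomputable def ell (j : ℕ) : ℝ := (j : ℝ) ^ 2 * Real.log 2

lemma ell_eq (j : ℕ) : Real.log ((2 ^ (j ^ 2) : ℕ) : ℝ) = ell j := by
  unfold ell; push_cast; rw [Real.log_pow]; push_cast; ring

lemma tendsto_ell : Tendsto ell atTop atTop := by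
  unfold ell
  refine Tendsto.atTop_mul_const (Real.log_pos (by norm_num)) ?_
  exact (tendsto_pow_atTop (by norm_num)).comp tendsto_natCast_atTop_atTop

lemma ell_ge (c : ℝ) (hc : 0 < c) : ∀ᶠ j : ℕ in atTop, (j : ℝ) ≤ c * ell j := by
  have h := (tendsto_natCast_atTop_atTop (R := ℝ)).eventually_ge_atTop (1 / (c * Real.log 2))
  filter_upwards [h] with j hj
  have hl2 : 0 < Real.log 2 := Real.log_pos (by norm_num)
  unfold ell
  rw [div_le_iff₀ (by positivity)] at hj
  have : (0 : ℝ) ≤ j := Nat.cast_nonneg j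
  nlinarith

lemma summable_exp_neg_nat' : Summable (fun j : ℕ => Real.exp (-(j : ℝ))) := by
  have := Real.summable_exp_neg_nat
  exact this

lemma prod_bound {i₀ : ℕ} (hi₀ : 1 ≤ i₀) {K : ℕ} (hK : i₀ ≤ K) :
    ∏ i ∈ Finset.Ico i₀ K, (15 / (i : ℝ)) ≤ 15 ^ K * (i₀.factorial : ℝ) / ((K - 1).factorial : ℝ) := by
  induction K, hK using Nat.le_induction with
  | base =>
    simp only [Finset.Ico_self, Finset.prod_empty]
    rw [le_div_iff₀ (by positivity)]
    have h1 : ((i₀ - 1).factorial : ℝ) ≤ (i₀.factorial : ℝ) := by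
      exact_mod_cast Nat.factorial_le (Nat.sub_le _ _)
    have h2 : (1 : ℝ) ≤ 15 ^ i₀ := one_le_pow₀ (by norm_num)
    nlinarith [show (0 : ℝ) < i₀.factorial by positivity]
  | succ K hK ih =>
    rw [Finset.prod_Ico_succ_top hK]
    have hKpos : (0 : ℝ) < K := by
      have : 0 < K := by omega
      exact_mod_cast this
    have h1 : (((K + 1 - 1).factorial : ℕ) : ℝ) = K * ((K - 1).factorial : ℝ) := by
      rw [Nat.add_sub_cancel]
      have : K.factorial = K * (K - 1).factorial := (Nat.mul_factorial_pred (by omega)).symm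
      rw [this]; push_cast; ring
    rw [h1]
    calc (∏ k ∈ Finset.Ico i₀ K, 15 / (k : ℝ)) * (15 / (K : ℝ)) ≤
        (15 ^ K * (i₀.factorial : ℝ) / ((K - 1).factorial : ℝ)) * (15 / (K : ℝ)) :=
          mul_le_mul_of_nonneg_right ih (by positivity)
      _ = _ := by
        rw [pow_succ]; field_simp

lemma factorial_lower (n : ℕ) : (n : ℝ) ^ n ≤ Real.exp n * n.factorial := by
  have := Real.pow_div_factorial_le_exp (x := (n : ℝ)) (Nat.cast_nonneg n) n
  rwa [div_le_iff₀ (by positivity)] at this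

/-- the length used in the upper bound -/
noncomputable def Kup (ε : ℝ) (j : ℕ) : ℕ := ⌈(1 + ε) * ell j / Real.log (ell j)⌉₊ + 2

lemma up_bound {ε : ℝ} (hε : 0 < ε) {i₀ : ℕ} (hi₀ : 15 ≤ i₀) : ∀ᶠ j : ℕ in atTop,
    ((2 ^ (j ^ 2) + 1 : ℕ) : ℝ) * ∏ i ∈ Finset.Ico i₀ (Kup ε j), (15 / (i : ℝ)) ≤
      Real.exp (-(j : ℝ)) := by
  have hC := tendsto_ell.eventually (asym1 hε (Real.log 2 + Real.log 15 + Real.log i₀.factorial))
  have h1 := tendsto_ell.eventually (asym4 (c := 1 + ε) (by linarith))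
  have hbig : ∀ᶠ j : ℕ in atTop, (i₀ : ℝ) ≤ 1 * ell j / Real.log (ell j) := by
    have := (tendsto_self_div_log.comp tendsto_ell).eventually_ge_atTop (i₀ : ℝ)
    filter_upwards [this] with j hj
    simpa using hj
  have h1' := tendsto_ell.eventually_ge_atTop 1
  have hlog := (Real.tendsto_log_atTop.comp tendsto_ell).eventually_gt_atTop 0
  filter_upwards [hC, h1, hbig, ell_ge (ε / 2) (by linarith), h1', hlog] with j a1 a2 a3 a4 a5 a6
  simp only [Function.comp_apply] at a6
  set κ := (1 + ε) * ell j / Real.log (ell j) with hκ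
  have hκ1 : 1 * ell j / Real.log (ell j) ≤ κ := by
    rw [hκ]; gcongr; linarith
  set K := Kup ε j with hK
  have hKlow : κ + 1 ≤ ((K - 1 : ℕ) : ℝ) := by
    have : K - 1 = ⌈κ⌉₊ + 1 := by rw [hK, Kup, ← hκ]; omega
    rw [this]; push_cast
    linarith [Nat.le_ceil κ]
  have hKup : ((K - 1 : ℕ) : ℝ) ≤ κ + 2 := by
    have : K - 1 = ⌈κ⌉₊ + 1 := by rw [hK, Kup, ← hκ]; omega
    rw [this]; push_cast
    linarith [Nat.ceil_lt_add_one (a := κ) (by linarith)]
  have hK2 : 2 ≤ K := by rw [hK, Kup]; omega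
  have hi₀K : i₀ ≤ K := by
    have : (i₀ : ℝ) ≤ ((K - 1 : ℕ) : ℝ) := by linarith
    have : i₀ ≤ K - 1 := by exact_mod_cast this
    omega
  set x : ℝ := ((K - 1 : ℕ) : ℝ) with hx
  have hx1 : 1 ≤ x := by linarith
  have hx0 : 0 < x := by linarith
  have hfac := factorial_lower (K - 1)
  rw [← hx] at hfac
  have hpb := prod_bound (by omega) hi₀K
  have hxpow : (x : ℝ) ^ (K - 1) = Real.exp (x * Real.log x) := by
    rw [mul_comm, Real.exp_mul, Real.exp_log hx0]
    rw [hx, Real.rpow_natCast]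
  have hfacpos : (0 : ℝ) < ((K - 1).factorial : ℝ) := by positivity
  have hinv : 1 / ((K - 1).factorial : ℝ) ≤ Real.exp (x - x * Real.log x) := by
    rw [div_le_iff₀ hfacpos, Real.exp_sub, ← hxpow]
    rw [div_mul_eq_mul_div, le_div_iff₀ (by positivity)]
    linarith
  have h15 : (15 : ℝ) ^ K = Real.exp ((x + 1) * Real.log 15) := by
    rw [mul_comm, Real.exp_mul, Real.exp_log (by norm_num)]
    rw [← Real.rpow_natCast]
    congr 1
    rw [hx, Nat.cast_sub (by omega)]; push_cast; ring
  have hN : ((2 ^ (j ^ 2) + 1 : ℕ) : ℝ) ≤ Real.exp (Real.log 2 + ell j) := by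
    rw [Real.exp_add, Real.exp_log (by norm_num), ← ell_eq, Real.exp_log (by positivity)]
    push_cast
    have : (1 : ℝ) ≤ 2 ^ (j ^ 2) := one_le_pow₀ (by norm_num)
    linarith
  have hmono : κ * Real.log κ ≤ x * Real.log x := by
    apply mul_le_mul (by linarith) (Real.log_le_log (by linarith) (by linarith))
      (Real.log_nonneg a2) (by linarith)
  have hl15 : Real.log 15 ≤ 3 := by
    have h1 : Real.log 15 ≤ Real.log (Real.exp 3) := by
      apply Real.log_le_log (by norm_num)
      have := Real.exp_one_gt_d9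
      have h3 : Real.exp 3 = Real.exp 1 ^ 3 := by rw [← Real.exp_nat_mul]; norm_num
      rw [h3]
      calc (15 : ℝ) ≤ 2.7 ^ 3 := by norm_num
        _ ≤ Real.exp 1 ^ 3 := by gcongr; linarith
    rwa [Real.log_exp] at h1
  calc ((2 ^ (j ^ 2) + 1 : ℕ) : ℝ) * ∏ i ∈ Finset.Ico i₀ K, (15 / (i : ℝ))
      ≤ Real.exp (Real.log 2 + ell j) *
        (15 ^ K * (i₀.factorial : ℝ) / ((K - 1).factorial : ℝ)) := by
        apply mul_le_mul hN hpb (Finset.prod_nonneg fun i _ => by positivity) (Real.exp_pos _).le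
    _ = Real.exp (Real.log 2 + ell j) * (Real.exp ((x + 1) * Real.log 15) *
        Real.exp (Real.log i₀.factorial)) * (1 / ((K - 1).factorial : ℝ)) := by
        rw [h15, Real.exp_log (by positivity)]; ring
    _ ≤ Real.exp (Real.log 2 + ell j) * (Real.exp ((x + 1) * Real.log 15) *
        Real.exp (Real.log i₀.factorial)) * Real.exp (x - x * Real.log x) := by
        gcongr
    _ = Real.exp (Real.log 2 + ell j + ((x + 1) * Real.log 15 + Real.log i₀.factorial) +
        (x - x * Real.log x)) := by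
        rw [← Real.exp_add, ← Real.exp_add, ← Real.exp_add]
    _ ≤ Real.exp (-(j : ℝ)) := by
        apply Real.exp_le_exp.2
        have h3 : x * Real.log 15 ≤ x * 3 := mul_le_mul_of_nonneg_left hl15 hx0.le
        nlinarith

end Pool.Agent.H44.Hawk
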