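import Pool.Agent.H44.HawkE

open MeasureTheory Filter Topology
open scoped ENNReal

namespace Pool.Agent.H44.Hawk

lemma tsum_ne_top_of_eventually {f : ℕ → ℝ≥0∞} (hf : ∀ j, f j ≤ 1)
    (h : ∀ᶠ j : ℕ in atTop, f j ≤ ENNReal.ofReal (Real.exp (-(j : ℝ)))) : ∑' j, f j ≠ ∞ := by
  obtain ⟨J, hJ⟩ := eventually_atTop.1 h
  have hs : Summable (fun j : ℕ => Real.exp (-(j : ℝ)) + if j < J then 1 else 0) := by
    apply summable_exp_neg_nat'.add
    exact summable_of_ne_finset_zero (s := Finset.range J) (fun b hb => by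
      simp only [Finset.mem_range] at hb; simp [hb])
  refine ne_top_of_le_ne_top (ENNReal.ofReal_ne_top
    (r := ∑' j : ℕ, (Real.exp (-(j : ℝ)) + if j < J then 1 else 0))) ?_
  rw [ENNReal.ofReal_tsum_of_nonneg (fun j => by
    have := Real.exp_pos (-(j : ℝ))
    split_ifs <;> linarith) hs]
  apply ENNReal.tsum_le_tsum
  intro j
  by_cases hj : j < J
  · refine (hf j).trans ?_
    rw [if_pos hj, ← ENNReal.ofReal_one]
    apply ENNReal.ofReal_le_ofReal
    linarith [Real.exp_pos (-(j : ℝ))]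
  · rw [if_neg hj, add_zero]
    exact hJ j (by omega)

/-- upper bound -/
lemma ae_upper (first : Bool) {ε : ℝ} (hε : 0 < ε) : ∀ᵐ u ∂uniforms, ∀ᶠ j : ℕ in atTop,
    ∀ n ≤ 2 ^ (j ^ 2), ¬ HasChain (randomPrimes u) first n (Kup ε j) := by
  have h1 : ∀ᵐ u ∂uniforms, ∀ d : ℕ, ∀ᶠ j : ℕ in atTop,
      u ∉ {u : ℕ → ℝ | ∃ n ≤ 2 ^ (j ^ 2), 2 ≤ n ∧ ∀ i ∈ Finset.Ico (15 + d) (Kup ε j),
        u ((step first)^[i] n) < 15 / (i : ℝ)} := by
    rw [ae_all_iff]
    intro d
    apply ae_eventually_notMem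
    apply tsum_ne_top_of_eventually (fun j => prob_le_one)
    filter_upwards [up_bound hε (i₀ := 15 + d) (by omega)] with j hj
    refine (upper_prob first (15 + d) (Kup ε j) (2 ^ (j ^ 2)) (by omega)).trans ?_
    rw [← ENNReal.ofReal_natCast, ← ENNReal.ofReal_mul (by positivity)]
    exact ENNReal.ofReal_le_ofReal hj
  filter_upwards [h1, ae_Y_bounds] with u hu ⟨m₀, hm₀⟩
  filter_upwards [hu m₀] with j hj n hn hch
  apply hj
  have h0 : 0 < Kup ε j := by unfold Kup; omega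
  have hn2 : 2 ≤ n := (hch 0 h0).1
  refine ⟨n, hn, hn2, fun i hi => ?_⟩
  rw [Finset.mem_Ico] at hi
  have hmem := (hch i hi.2).2
  have ht : 2 ^ i ≤ (step first)^[i] n := two_pow_le_term first hn2 i
  set t := (step first)^[i] n with htdef
  have htm : m₀ ≤ t := by
    have : i < 2 ^ i := Nat.lt_two_pow_self
    omega
  have hY := (hm₀ t htm).1
  have hlogt : (i : ℝ) * Real.log 2 ≤ Real.log t := by
    rw [← Real.log_pow]
    apply Real.log_le_log (by positivity)
    exact_mod_cast ht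
  have hl2 : (0.69 : ℝ) < Real.log 2 := by linarith [Real.log_two_gt_d9]
  have hi0 : (15 : ℝ) ≤ i := by
    have : 15 ≤ i := by omega
    exact_mod_cast this
  refine hmem.trans_le ?_
  have hs : survival u t = 1 / Y u t := by simp [Y]
  rw [hs]
  have hYpos := Y_pos u t
  rw [div_le_div_iff₀ hYpos (by linarith)]
  nlinarith

/-- lengths and thresholds for the lower bound -/
noncomputable def Klow (ε : ℝ) (j : ℕ) : ℕ := ⌈(1 - ε) * ell j / Real.log (ell j)⌉₊

noncomputable def plow (ε : ℝ) (j : ℕ) : ℝ :=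
  1 / (11 * (((Klow ε j : ℝ) + (j : ℝ) ^ 2) * Real.log 2))

lemma low_bound {ε : ℝ} (hε : 0 < ε) (hε1 : ε < 1) : ∀ᶠ j : ℕ in atTop,
    0 ≤ plow ε j ∧ plow ε j ≤ 1 ∧
    (1 - plow ε j ^ (Klow ε j)) ^ (2 ^ (j ^ 2 - 2)) ≤ Real.exp (-(j : ℝ)) := by
  have h2 := tendsto_ell.eventually (asym2 hε)
  have h3 := tendsto_ell.eventually (asym3 (1 - ε))
  have h4 := tendsto_ell.eventually (asym4 (c := 1 - ε) (by linarith))
  filter_upwards [h2, h3, h4, ell_ge (ε / 2) (by linarith), tendsto_ell.eventually_ge_atTop 1,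
    eventually_ge_atTop 2] with j a2 a3 a4 a5 a6 a7
  have hl2 : (0.69 : ℝ) < Real.log 2 := by linarith [Real.log_two_gt_d9]
  have hl2' : Real.log 2 < 0.7 := by linarith [Real.log_two_lt_d9]
  set κ := (1 - ε) * ell j / Real.log (ell j) with hκ
  have hk1 : (Klow ε j : ℝ) ≤ κ + 1 := by
    unfold Klow; rw [← hκ]
    exact (Nat.ceil_lt_add_one (by linarith)).le
  have hj2 : (2 : ℝ) ≤ j := by exact_mod_cast a7
  have hell : ell j = (j : ℝ) ^ 2 * Real.log 2 := rfl
  have hk0 : (0 : ℝ) ≤ Klow ε j := Nat.cast_nonneg _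
  have hden : 1 ≤ 11 * (((Klow ε j : ℝ) + (j : ℝ) ^ 2) * Real.log 2) := by nlinarith
  have hp0 : 0 < plow ε j := by
    unfold plow; positivity
  have hp1 : plow ε j ≤ 1 := by
    unfold plow; rw [div_le_one (by linarith)]; exact hden
  refine ⟨hp0.le, hp1, ?_⟩
  -- log (1/p) ≤ log 22 + log ell
  have hlogp : -Real.log (plow ε j) ≤ Real.log 22 + Real.log (ell j) := by
    unfold plow
    rw [one_div, Real.log_inv, neg_neg, ← Real.log_mul (by norm_num) (by linarith)]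
    apply Real.log_le_log (by linarith)
    have : ((Klow ε j : ℝ) + (j : ℝ) ^ 2) * Real.log 2 = (Klow ε j : ℝ) * Real.log 2 + ell j := by
      rw [hell]; ring
    rw [this]
    nlinarith
  have hp_pow : plow ε j ^ (Klow ε j) = Real.exp ((Klow ε j : ℝ) * Real.log (plow ε j)) := by
    rw [mul_comm, Real.exp_mul, Real.exp_log hp0, Real.rpow_natCast]
  have hA : ((2 ^ (j ^ 2 - 2) : ℕ) : ℝ) = Real.exp (ell j - 2 * Real.log 2) := by
    rw [Real.exp_sub, ← ell_eq, Real.exp_log (by positivity)]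
    have h4 : Real.exp (2 * Real.log 2) = 4 := by
      rw [mul_comm, Real.exp_mul, Real.exp_log (by norm_num)]; norm_num
    rw [h4]
    have h5 : 2 ^ (j ^ 2) = 2 ^ (j ^ 2 - 2) * 4 := by
      have : j ^ 2 = (j ^ 2 - 2) + 2 := by
        have : 2 ≤ j ^ 2 := by nlinarith
        omega
      conv_lhs => rw [this, pow_add]
      norm_num
    rw [h5]; push_cast; ring
  have hmain : (j : ℝ) ≤ ((2 ^ (j ^ 2 - 2) : ℕ) : ℝ) * plow ε j ^ (Klow ε j) := by
    rw [hA, hp_pow, ← Real.exp_add]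
    have hneg : Real.log (plow ε j) ≤ 0 := Real.log_nonpos hp0.le hp1
    have h5 : (Klow ε j : ℝ) * (-Real.log (plow ε j)) ≤
        (κ + 1) * (Real.log 22 + Real.log (ell j)) := by
      apply mul_le_mul hk1 hlogp (by linarith) (by linarith)
    have h6 : (ε / 2) * ell j ≤ ell j - 2 * Real.log 2 + (Klow ε j : ℝ) * Real.log (plow ε j) := by
      linarith
    calc (j : ℝ) ≤ (ε / 2) * ell j := a5
      _ ≤ (ε / 2) * ell j + 1 := by linarith
      _ ≤ Real.exp ((ε / 2) * ell j) := Real.add_one_le_exp _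
      _ ≤ _ := Real.exp_le_exp.2 h6
  have hq1 : plow ε j ^ (Klow ε j) ≤ 1 := pow_le_one₀ hp0.le hp1
  calc (1 - plow ε j ^ (Klow ε j)) ^ (2 ^ (j ^ 2 - 2))
      ≤ (Real.exp (-(plow ε j ^ (Klow ε j)))) ^ (2 ^ (j ^ 2 - 2)) := by
        apply pow_le_pow_left₀ (by linarith)
        have := Real.add_one_le_exp (-(plow ε j ^ (Klow ε j)))
        linarith
    _ = Real.exp (-(((2 ^ (j ^ 2 - 2) : ℕ) : ℝ) * plow ε j ^ (Klow ε j))) := by
        rw [← Real.exp_nat_mul]; congr 1; ring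
    _ ≤ Real.exp (-(j : ℝ)) := Real.exp_le_exp.2 (by linarith)

/-- lower bound -/
lemma ae_lower (first : Bool) {ε : ℝ} (hε : 0 < ε) (hε1 : ε < 1) :
    ∀ᵐ u ∂uniforms, ∀ᶠ j : ℕ in atTop,
    ∃ n ≤ 2 ^ (j ^ 2), HasChain (randomPrimes u) first n (Klow ε j) := by
  have h1 : ∀ᵐ u ∂uniforms, ∀ᶠ j : ℕ in atTop,
      u ∉ {u : ℕ → ℝ | ∀ b : Fin (2 ^ (j ^ 2 - 2)), ∃ i : Fin (Klow ε j),
      ¬ u ((step first)^[(i : ℕ)] (F first (2 ^ (j ^ 2 - 2) + (b : ℕ)))) < plow ε j} := by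
    apply ae_eventually_notMem
    apply tsum_ne_top_of_eventually (fun j => prob_le_one)
    filter_upwards [low_bound hε hε1] with j ⟨hj1, hj2, hj3⟩
    refine (lower_prob first _ _ Nat.one_le_two_pow hj1 hj2).trans ?_
    exact ENNReal.ofReal_le_ofReal hj3
  filter_upwards [h1, ae_Y_bounds] with u hu ⟨m₀, hm₀⟩
  filter_upwards [hu, eventually_ge_atTop (m₀ + 4)] with j hj hjm
  simp only [not_forall, not_exists, not_not] at hj
  obtain ⟨⟨b, hb2⟩, hb⟩ := hj
  simp only at hb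
  have hjj : j ≤ j ^ 2 - 2 := by
    have : j * 4 ≤ j * j := Nat.mul_le_mul_left _ (by omega)
    have h2 : j ^ 2 = j * j := by ring
    omega
  have hApow : 2 ^ (j ^ 2 - 2) * 4 = 2 ^ (j ^ 2) := by
    have : j ^ 2 = (j ^ 2 - 2) + 2 := by omega
    conv_rhs => rw [this, pow_add]
    norm_num
  have hAbig : j < 2 ^ (j ^ 2 - 2) :=
    lt_of_le_of_lt hjj Nat.lt_two_pow_self
  set A := 2 ^ (j ^ 2 - 2) with hAdef
  refine ⟨F first (A + b), ?_, ?_⟩
  · have := F_le first (A + b)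
    omega
  · intro i hi
    have hlt := hb ⟨i, hi⟩
    simp only at hlt
    have hiter := iterate_step first (a := A + b) (by omega) i
    rw [hiter] at hlt ⊢
    have hv1 : A ≤ 2 ^ i * (A + b) := by
      calc A ≤ 1 * (A + b) := by omega
        _ ≤ 2 ^ i * (A + b) := Nat.mul_le_mul_right _ Nat.one_le_two_pow
    have ht1 := le_F first (2 ^ i * (A + b))
    have ht2 := F_le first (2 ^ i * (A + b))
    set t := F first (2 ^ i * (A + b)) with ht
    have ht3 : 2 ≤ t := by omega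
    refine ⟨ht3, hlt.trans_le ?_⟩
    have hY := (hm₀ t (by omega)).2
    have hYpos := Y_pos u t
    have hs : survival u t = 1 / Y u t := by simp [Y]
    rw [hs, plow]
    apply one_div_le_one_div_of_le hYpos
    refine hY.trans ?_
    have htup : (t : ℝ) ≤ 2 ^ (Klow ε j + j ^ 2) := by
      have h5 : 2 ^ i * (A + b) ≤ 2 ^ (Klow ε j - 1) * (2 * A) :=
        Nat.mul_le_mul (Nat.pow_le_pow_right (by norm_num) (by omega)) (by omega)
      have h6 : 2 ^ (Klow ε j - 1) * (2 * A) + 1 ≤ 2 ^ (Klow ε j + j ^ 2) := by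
        rw [pow_add, ← hApow]
        have h7 : 2 ^ (Klow ε j - 1) ≤ 2 ^ (Klow ε j) :=
          Nat.pow_le_pow_right (by norm_num) (by omega)
        have h8 : 1 ≤ 2 ^ (Klow ε j) := Nat.one_le_two_pow
        nlinarith
      have : t ≤ 2 ^ (Klow ε j + j ^ 2) := by omega
      exact_mod_cast this
    have hlogt : Real.log t ≤ ((Klow ε j : ℝ) + (j : ℝ) ^ 2) * Real.log 2 := by
      have := Real.log_le_log (by positivity) htup
      rw [Real.log_pow] at this
      push_cast at this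
      exact this
    linarith

end Pool.Agent.H44.Hawk
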