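import Pool.Agent.H44.HawkF

open MeasureTheory Filter Topology
open scoped ENNReal

namespace Pool.Agent.H44.Hawk

lemma HasChain.mono {A : Set ℕ} {first : Bool} {n k k' : ℕ} (h : HasChain A first n k)
    (hk : k' ≤ k) : HasChain A first n k' := fun i hi => h i (by omega)

lemma lengths_bdd {A : Set ℕ} {first : Bool} {x K : ℕ} (h : ∀ n ≤ x, ¬ HasChain A first n K)
    {y : ℕ} (hy : y ≤ x) : ∀ k ∈ {k | ∃ n ≤ y, HasChain A first n k}, k + 1 ≤ K := by
  rintro k ⟨n, hn, hk⟩
  by_contra hlt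
  exact h n (by omega) (hk.mono (by omega))

lemma longest_lt {A : Set ℕ} {first : Bool} {x K : ℕ} (h : ∀ n ≤ x, ¬ HasChain A first n K) :
    longest A first x + 1 ≤ K := by
  have hne : {k | ∃ n ≤ x, HasChain A first n k}.Nonempty := ⟨0, 0, by omega, fun i hi => by omega⟩
  have hb := lengths_bdd h le_rfl
  have hmem := Nat.sSup_mem hne ⟨K, fun k hk => by have := hb k hk; omega⟩
  exact hb _ hmem

lemma le_longest {A : Set ℕ} {first : Bool} {x k n : ℕ}
    (hbdd : BddAbove {k | ∃ n ≤ x, HasChain A first n k}) (hn : n ≤ x)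
    (h : HasChain A first n k) : k ≤ longest A first x :=
  le_csSup hbdd ⟨n, hn, h⟩

/-- the block index -/
noncomputable def jx (x : ℕ) : ℕ := Nat.sqrt (Nat.log 2 x)

lemma jx_le {x : ℕ} (hx : 1 ≤ x) : 2 ^ ((jx x) ^ 2) ≤ x := by
  calc 2 ^ ((jx x) ^ 2) ≤ 2 ^ (Nat.log 2 x) := Nat.pow_le_pow_right (by norm_num) (by
        unfold jx; exact Nat.sqrt_le' _)
    _ ≤ x := Nat.pow_log_le_self 2 (by omega)

lemma lt_jx (x : ℕ) : x < 2 ^ ((jx x + 1) ^ 2) := by
  calc x < 2 ^ (Nat.log 2 x + 1) := Nat.lt_pow_succ_log_self (by norm_num) x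
    _ ≤ 2 ^ ((jx x + 1) ^ 2) := Nat.pow_le_pow_right (by norm_num) (by
        unfold jx
        have := Nat.lt_succ_sqrt' (Nat.log 2 x)
        exact this)

lemma tendsto_jx : Tendsto jx atTop atTop := by
  rw [tendsto_atTop]
  intro b
  filter_upwards [eventually_ge_atTop (2 ^ (b ^ 2))] with x hx
  by_contra h
  have h1 : jx x + 1 ≤ b := by omega
  have h2 := lt_jx x
  have h3 : 2 ^ ((jx x + 1) ^ 2) ≤ 2 ^ (b ^ 2) :=
    Nat.pow_le_pow_right (by norm_num) (Nat.pow_le_pow_left h1 2)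
  omega

lemma phi_mono {a b : ℝ} (ha : Real.exp 1 ≤ a) (hab : a ≤ b) :
    a / Real.log a ≤ b / Real.log b := by
  have hb : Real.exp 1 ≤ b := ha.trans hab
  have h := Real.log_div_self_antitoneOn (a := a) (b := b) ha hb hab
  simp only at h
  have ha0 : 0 < a := (Real.exp_pos 1).trans_le ha
  have hb0 : 0 < b := (Real.exp_pos 1).trans_le hb
  have hla : 0 < Real.log a := Real.log_pos (by
    have := Real.add_one_le_exp (1 : ℝ); linarith)
  have hlb : 0 < Real.log b := Real.log_pos (by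
    have := Real.add_one_le_exp (1 : ℝ); linarith)
  rw [div_le_div_iff₀ hb0 ha0] at h
  rw [div_le_div_iff₀ hla hlb]
  linarith

lemma tendsto_ratio : Tendsto (fun j : ℕ => ell (j + 1) / ell j) atTop (𝓝 1) := by
  have h1 : Tendsto (fun j : ℕ => (1 + 1 / (j : ℝ)) ^ 2) atTop (𝓝 ((1 + 0) ^ 2)) :=
    (tendsto_const_nhds.add tendsto_one_div_atTop_nhds_zero_nat).pow 2
  rw [add_zero, one_pow] at h1
  refine h1.congr' ?_
  filter_upwards [eventually_ge_atTop 1] with j hj
  have hj' : (j : ℝ) ≠ 0 := by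
    have : (0 : ℝ) < j := by exact_mod_cast hj
    exact this.ne'
  have hl : Real.log 2 ≠ 0 := (Real.log_pos (by norm_num)).ne'
  unfold ell
  push_cast
  field_simp

lemma ell_mono {i j : ℕ} (h : i ≤ j) : ell i ≤ ell j := by
  unfold ell
  have hl : 0 ≤ Real.log 2 := (Real.log_pos (by norm_num)).le
  have : (i : ℝ) ≤ j := by exact_mod_cast h
  gcongr

/-- upper and lower estimates along the sequence imply the asymptotic -/
lemma final_det {A : Set ℕ} {first : Bool}
    (hup : ∀ m : ℕ, ∀ᶠ j : ℕ in atTop,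
      ∀ n ≤ 2 ^ (j ^ 2), ¬ HasChain A first n (Kup (1 / ((m : ℝ) + 2)) j))
    (hlow : ∀ m : ℕ, ∀ᶠ j : ℕ in atTop,
      ∃ n ≤ 2 ^ (j ^ 2), HasChain A first n (Klow (1 / ((m : ℝ) + 2)) j)) :
    (∀ x : ℕ, BddAbove {k | ∃ n ≤ x, HasChain A first n k}) ∧
    Tendsto (fun x : ℕ => (longest A first x : ℝ) / (Real.log x / Real.log (Real.log x)))
      atTop (𝓝 1) := by
  have hb : ∀ x : ℕ, BddAbove {k | ∃ n ≤ x, HasChain A first n k} := by
    intro x
    obtain ⟨j, hj1, hj2⟩ := ((hup 0).and (eventually_ge_atTop x)).exists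
    have hx : x ≤ 2 ^ (j ^ 2) := by
      calc x ≤ j := hj2
        _ ≤ j ^ 2 := by nlinarith [Nat.zero_le j]
        _ ≤ 2 ^ (j ^ 2) := Nat.lt_two_pow_self.le
    exact ⟨_, fun k hk => by have := lengths_bdd hj1 hx k hk; exact (Nat.le_of_succ_le this)⟩
  refine ⟨hb, ?_⟩
  rw [Metric.tendsto_nhds]
  intro δ hδ
  -- choose m with small epsilon
  obtain ⟨m, hm⟩ := exists_nat_gt (4 / min δ 1)
  set ε : ℝ := 1 / ((m : ℝ) + 2) with hε
  have hδ' : 0 < min δ 1 := lt_min hδ one_pos
  have hεpos : 0 < ε := by positivity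
  have hm0 : (0 : ℝ) < (m : ℝ) + 2 := by positivity
  have hεδ : ε < min δ 1 / 4 := by
    rw [hε, div_lt_iff₀ hm0]
    rw [div_lt_iff₀ hδ'] at hm
    nlinarith
  have hε1 : ε < 1 := by
    have := min_le_right δ 1
    linarith
  have hφ := (tendsto_self_div_log.comp tendsto_ell)
  have hup' := (tendsto_jx.eventually ((tendsto_add_atTop_nat 1).eventually (hup m)))
  have hlow' := tendsto_jx.eventually (hlow m)
  have hr := tendsto_jx.eventually (tendsto_ratio.eventually_lt_const (show (1 : ℝ) < 1 + ε by linarith))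
  have hφ' := tendsto_jx.eventually (hφ.eventually_ge_atTop (2 / ε))
  have he := tendsto_jx.eventually (tendsto_ell.eventually_ge_atTop (Real.exp 1))
  filter_upwards [hup', hlow', hr, hφ', he, eventually_ge_atTop 1] with x a1 a2 a3 a4 a5 a6
  simp only [Function.comp_apply] at a4
  set j := jx x with hj
  have hx1 : 2 ^ (j ^ 2) ≤ x := jx_le a6
  have hx2 : x < 2 ^ ((j + 1) ^ 2) := lt_jx x
  have hexp1 : (1 : ℝ) < Real.exp 1 := by have := Real.add_one_le_exp (1 : ℝ); linarith
  have hLx1 : ell j ≤ Real.log x := by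
    rw [← ell_eq]; apply Real.log_le_log (by positivity); exact_mod_cast hx1
  have hLx2 : Real.log x ≤ ell (j + 1) := by
    rw [← ell_eq]; apply Real.log_le_log (by positivity); exact_mod_cast hx2.le
  have hΦ1 := phi_mono a5 hLx1
  have hΦ2 := phi_mono (a5.trans hLx1) hLx2
  have hlj : 0 < Real.log (ell j) := Real.log_pos (by linarith)
  have hej : 0 < ell j := by linarith [Real.exp_pos (1 : ℝ)]
  have hΦ3 : ell (j + 1) / Real.log (ell (j + 1)) ≤ (1 + ε) * (ell j / Real.log (ell j)) := by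
    have h1 : Real.log (ell j) ≤ Real.log (ell (j + 1)) :=
      Real.log_le_log hej (ell_mono (by omega))
    have h0 : 0 < ell (j + 1) := hej.trans_le (ell_mono (by omega))
    calc ell (j + 1) / Real.log (ell (j + 1)) ≤ ell (j + 1) / Real.log (ell j) :=
          div_le_div_of_nonneg_left h0.le hlj h1
      _ = (ell (j + 1) / ell j) * (ell j / Real.log (ell j)) := by field_simp
      _ ≤ (1 + ε) * (ell j / Real.log (ell j)) :=
          mul_le_mul_of_nonneg_right a3.le (by positivity)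
  set Φ := Real.log x / Real.log (Real.log x) with hΦ
  set Φj := ell j / Real.log (ell j) with hΦj
  have hΦjpos : 0 < Φj := by positivity
  have hΦpos : 0 < Φ := by linarith
  -- upper estimate
  have hU : (longest A first x : ℝ) ≤ (1 + ε) * ((1 + ε) * Φj) + ε * Φj := by
    have h1 : longest A first x + 1 ≤ Kup ε (j + 1) := by
      apply longest_lt
      intro n hn
      exact a1 n (by omega)
    have h2 : (longest A first x : ℝ) + 1 ≤ Kup ε (j + 1) := by exact_mod_cast h1
    have h3 : (Kup ε (j + 1) : ℝ) ≤ (1 + ε) * (ell (j + 1) / Real.log (ell (j + 1))) + 3 := by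
      unfold Kup
      push_cast
      have hnn : 0 ≤ (1 + ε) * ell (j + 1) / Real.log (ell (j + 1)) := by
        have h0 : 0 < ell (j + 1) := hej.trans_le (ell_mono (by omega))
        have h1 : 0 < Real.log (ell (j + 1)) :=
          hlj.trans_le (Real.log_le_log hej (ell_mono (by omega)))
        positivity
      have := Nat.ceil_lt_add_one hnn
      rw [mul_div_assoc] at this ⊢
      linarith
    have h4 : (1 + ε) * (ell (j + 1) / Real.log (ell (j + 1))) ≤ (1 + ε) * ((1 + ε) * Φj) :=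
      mul_le_mul_of_nonneg_left hΦ3 (by linarith)
    have h5 : 2 ≤ ε * Φj := by
      rw [div_le_iff₀' hεpos] at a4; exact a4
    linarith
  -- lower estimate
  have hL : (1 - ε) * Φj ≤ (longest A first x : ℝ) := by
    obtain ⟨n, hn, hch⟩ := a2
    have h1 : Klow ε j ≤ longest A first x := le_longest (hb x) (hn.trans hx1) hch
    have h2 : ((Klow ε j : ℕ) : ℝ) ≤ (longest A first x : ℝ) := by exact_mod_cast h1
    have h3 : (1 - ε) * Φj ≤ (Klow ε j : ℝ) := by
      unfold Klow
      rw [mul_div_assoc]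
      exact Nat.le_ceil _
    linarith
  have hmin1 := min_le_left δ 1
  have hmin2 := min_le_right δ 1
  rw [Real.dist_eq, abs_lt]
  constructor
  · rw [lt_sub_iff_add_lt, lt_div_iff₀ hΦpos]
    have h1 : Φ ≤ (1 + ε) * Φj := hΦ2.trans hΦ3
    have h2 : (-δ + 1) * Φ < (1 - ε) * Φj := by
      by_cases h : 0 ≤ -δ + 1
      · calc (-δ + 1) * Φ ≤ (-δ + 1) * ((1 + ε) * Φj) := mul_le_mul_of_nonneg_left h1 h
          _ < (1 - ε) * Φj := by
            rw [← mul_assoc]
            apply mul_lt_mul_of_pos_right _ hΦjpos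
            have : ε < δ / 4 := by linarith
            nlinarith
      · push Not at h
        have h3 : (-δ + 1) * Φ < 0 := mul_neg_of_neg_of_pos h hΦpos
        have h4 : 0 ≤ (1 - ε) * Φj := mul_nonneg (by linarith) hΦjpos.le
        linarith
    linarith
  · rw [sub_lt_iff_lt_add, div_lt_iff₀ hΦpos]
    have h1 : (1 + ε) * ((1 + ε) * Φj) + ε * Φj < (δ + 1) * Φj := by
      have : (1 + ε) * ((1 + ε) * Φj) + ε * Φj = ((1 + ε) * (1 + ε) + ε) * Φj := by ring
      rw [this]
      apply mul_lt_mul_of_pos_right _ hΦjpos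
      nlinarith
    have h2 : (δ + 1) * Φj ≤ (δ + 1) * Φ := mul_le_mul_of_nonneg_left hΦ1 (by linarith)
    linarith

theorem main (first : Bool) : ∀ᵐ u ∂uniforms,
    (∀ x : ℕ, BddAbove {k | ∃ n ≤ x, HasChain (randomPrimes u) first n k}) ∧
    Tendsto (fun x : ℕ => (longest (randomPrimes u) first x : ℝ) /
      (Real.log x / Real.log (Real.log x))) atTop (𝓝 1) := by
  have h1 : ∀ᵐ u ∂uniforms, ∀ m : ℕ, ∀ᶠ j : ℕ in atTop,
      ∀ n ≤ 2 ^ (j ^ 2), ¬ HasChain (randomPrimes u) first n (Kup (1 / ((m : ℝ) + 2)) j) := by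
    rw [ae_all_iff]
    intro m
    exact ae_upper first (by positivity)
  have h2 : ∀ᵐ u ∂uniforms, ∀ m : ℕ, ∀ᶠ j : ℕ in atTop,
      ∃ n ≤ 2 ^ (j ^ 2), HasChain (randomPrimes u) first n (Klow (1 / ((m : ℝ) + 2)) j) := by
    rw [ae_all_iff]
    intro m
    refine ae_lower first (by positivity) ?_
    rw [div_lt_one (by positivity)]
    have : (0 : ℝ) ≤ m := Nat.cast_nonneg m
    linarith
  filter_upwards [h1, h2] with u hu1 hu2
  exact final_det hu1 hu2

end Pool.Agent.H44.Hawk
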