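import Mathlib

set_option autoImplicit false

namespace Pool.Agent.H44.Ritt

open Finset

abbrev R := AddMonoidAlgebra ℝ ℤ

/-- monomial -/
noncomputable def T (s : ℤ) : R := AddMonoidAlgebra.single s 1

/-- indicator of the symmetric interval. -/
noncomputable def D (k : ℕ) : R := ∑ s ∈ Icc (-(k:ℤ)) k, T s

/-- uniform probability on the symmetric interval. -/
noncomputable def u (k : ℕ) : R := (1 / (2 * (k:ℝ) + 1)) • D k

lemma coeff_T_mul (s : ℤ) (F : R) (x : ℤ) : (T s * F).coeff x = F.coeff (x - s) := by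
  unfold T
  rw [AddMonoidAlgebra.coeff_single_mul_apply, one_mul, sub_eq_neg_add]

lemma coeff_T (s x : ℤ) : (T s).coeff x = if x = s then 1 else 0 := by
  simp [T, eq_comm]

lemma coeff_D_mul (k : ℕ) (F : R) (x : ℤ) :
    (D k * F).coeff x = ∑ s ∈ Icc (-(k:ℤ)) k, F.coeff (x - s) := by
  simp [D, Finset.sum_mul, coeff_T_mul]

lemma coeff_D (k : ℕ) (x : ℤ) : (D k).coeff x = if |x| ≤ (k:ℤ) then 1 else 0 := by
  simp [D, coeff_T, abs_le]

lemma coeff_u (k : ℕ) (x : ℤ) :
    (u k).coeff x = if |x| ≤ (k:ℤ) then 1 / (2 * (k:ℝ) + 1) else 0 := by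
  simp [u, coeff_D]

lemma coeff_u_mul (k : ℕ) (F : R) (x : ℤ) :
    (u k * F).coeff x = (1 / (2 * (k:ℝ) + 1)) * ∑ s ∈ Icc (-(k:ℤ)) k, F.coeff (x - s) := by
  simp [u, coeff_D_mul]

lemma coeff_one (x : ℤ) : (1 : R).coeff x = if x = 0 then 1 else 0 := by
  rw [AddMonoidAlgebra.one_def, AddMonoidAlgebra.coeff_single, Finsupp.single_apply]
  simp [eq_comm]

lemma u_zero : u 0 = 1 := by
  ext x
  rw [coeff_u, coeff_one]
  simp

/-- Clebsch-Gordan -/
lemma D_mul_D (a b : ℕ) : D a * D b = ∑ r ∈ Icc (max (a - b) (b - a)) (a + b), D r := by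
  ext x
  rw [coeff_D_mul, AddMonoidAlgebra.coeff_sum, Finsupp.finsetSum_apply]
  simp only [coeff_D]
  rw [Finset.sum_ite, Finset.sum_ite]
  simp only [Finset.sum_const_zero, add_zero, Finset.sum_const, nsmul_eq_mul, mul_one]
  congr 1
  have h1 : (filter (fun s : ℤ => |x - s| ≤ (b:ℤ)) (Icc (-(a:ℤ)) a)) = Icc (max (-(a:ℤ)) (x - b)) (min (a:ℤ) (x + b)) := by
    ext s
    simp only [mem_filter, mem_Icc, abs_le]
    omega
  have h2 : (filter (fun r : ℕ => |x| ≤ (r:ℤ)) (Icc (max (a - b) (b - a)) (a + b))) = Icc (max (max (a - b) (b - a)) x.natAbs) (a + b) := by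
    ext s
    simp only [mem_filter, mem_Icc, abs_le]
    omega
  rw [h1, h2, Int.card_Icc, Nat.card_Icc]
  omega


/-- Pólya frequency of order two. -/
def PF (w : ℤ → ℝ) : Prop :=
  ∀ x y x' y' : ℤ, x + y = x' + y' → |x - y| ≤ |x' - y'| → w x' * w y' ≤ w x * w y

lemma PF_of_adj (g : ℤ → ℝ) (h : ∀ i j : ℤ, i ≤ j → g (i - 1) * g (j + 1) ≤ g i * g j) : PF g := by
  have key : ∀ (d : ℕ) (i j : ℤ), i ≤ j → g (i - d) * g (j + d) ≤ g i * g j := by
    intro d
    induction d with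
    | zero => intro i j _; simp
    | succ d ih =>
      intro i j hij
      have h1 := ih i j hij
      have h2 := h (i - d) (j + d) (by omega)
      have e1 : i - ((d + 1 : ℕ) : ℤ) = i - d - 1 := by push_cast; ring
      have e2 : j + ((d + 1 : ℕ) : ℤ) = j + d + 1 := by push_cast; ring
      rw [e1, e2]
      exact h2.trans h1
  -- ordered version
  have key2 : ∀ x y x' y' : ℤ, x ≤ y → x' ≤ y' → x + y = x' + y' → |x - y| ≤ |x' - y'| →
      g x' * g y' ≤ g x * g y := by
    intro x y x' y' hxy hxy' hs hd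
    rw [abs_of_nonpos (by omega), abs_of_nonpos (by omega)] at hd
    have := key (x - x').toNat x y hxy
    have e : (((x - x').toNat : ℕ) : ℤ) = x - x' := Int.toNat_of_nonneg (by omega)
    rw [e] at this
    have e1 : x - (x - x') = x' := by ring
    have e2 : y + (x - x') = y' := by linarith
    rwa [e1, e2] at this
  intro x y x' y' hs hd
  rcases le_total x y with h1 | h1 <;> rcases le_total x' y' with h2 | h2
  · exact key2 x y x' y' h1 h2 hs hd
  · rw [mul_comm (g x')]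
    exact key2 x y y' x' h1 h2 (by omega) (by rwa [abs_sub_comm y' x'])
  · rw [mul_comm (g x)]
    exact key2 y x x' y' h1 h2 (by omega) (by rwa [abs_sub_comm y x])
  · rw [mul_comm (g x), mul_comm (g x')]
    exact key2 y x y' x' h1 h2 (by omega) (by rwa [abs_sub_comm y x, abs_sub_comm y' x'])

/-- window sum -/
def win (k : ℕ) (w : ℤ → ℝ) (x : ℤ) : ℝ := ∑ p ∈ range (2 * k + 1), w (x - k + p)

lemma PF_win (k : ℕ) (w : ℤ → ℝ) (hw : PF w) : PF (win k w) := by
  apply PF_of_adj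
  intro i j hij
  have e1 : win k w i = win k w (i - 1) + w (i + k) - w (i - 1 - k) := by
    unfold win
    rw [Finset.sum_range_succ, Finset.sum_range_succ']
    have : ∀ p : ℕ, w (i - 1 - k + ((p + 1 : ℕ) : ℤ)) = w (i - k + p) := by
      intro p; congr 1; push_cast; ring
    simp only [this]
    have h2 : w (i - k + ((2 * k : ℕ) : ℤ)) = w (i + k) := by congr 1; push_cast; ring
    rw [h2]
    simp
    ring
  have e2 : win k w (j + 1) = win k w j + w (j + 1 + k) - w (j - k) := by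
    unfold win
    rw [Finset.sum_range_succ, Finset.sum_range_succ']
    have : ∀ p : ℕ, w (j - k + ((p + 1 : ℕ) : ℤ)) = w (j + 1 - k + p) := by
      intro p; congr 1; push_cast; ring
    simp only [this]
    have h2 : w (j + 1 - k + ((2 * k : ℕ) : ℤ)) = w (j + 1 + k) := by congr 1; push_cast; ring
    rw [h2]
    simp
    ring
  have e3 : win k w i * win k w j - win k w (i - 1) * win k w (j + 1)
      = ∑ p ∈ range (2 * k + 1), ((w (i + k) * w (j - k + p) - w (i - 1 - k + p) * w (j + 1 + k))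
        + (w (i - 1 - k + p) * w (j - k) - w (i - 1 - k) * w (j - k + p))) := by
    rw [e1, e2]
    have a1 : win k w j = ∑ p ∈ range (2 * k + 1), w (j - k + p) := rfl
    have a2 : win k w (i - 1) = ∑ p ∈ range (2 * k + 1), w (i - 1 - k + p) := rfl
    rw [Finset.sum_add_distrib, Finset.sum_sub_distrib, Finset.sum_sub_distrib,
      ← Finset.mul_sum, ← Finset.mul_sum, ← Finset.sum_mul, ← Finset.sum_mul, ← a1, ← a2]
    ring
  have e4 : 0 ≤ win k w i * win k w j - win k w (i - 1) * win k w (j + 1) := by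
    rw [e3]
    apply Finset.sum_nonneg
    intro p hp
    have hp' : p < 2 * k + 1 := Finset.mem_range.mp hp
    have b1 := hw (i + k) (j - k + p) (i - 1 - k + p) (j + 1 + k) (by ring) (by
      rw [abs_le]; constructor
      · rw [abs_sub_comm]
        have := le_abs_self (j + 1 + (k:ℤ) - (i - 1 - k + p))
        omega
      · rw [abs_sub_comm]
        have := le_abs_self (j + 1 + (k:ℤ) - (i - 1 - k + p))
        omega)
    have b2 := hw (i - 1 - k + p) (j - k) (i - 1 - k) (j - k + p) (by ring) (by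
      rw [abs_le]; constructor
      · rw [abs_sub_comm]
        have := le_abs_self (j - (k:ℤ) + p - (i - 1 - k))
        omega
      · rw [abs_sub_comm]
        have := le_abs_self (j - (k:ℤ) + p - (i - 1 - k))
        omega)
    linarith
  linarith

lemma cauchy_lb (w c : ℕ → ℝ) (hw : ∀ n, 0 ≤ w n) (hc : ∀ n, 0 ≤ c n)
    (hsub : ∀ x y, w 0 * w (x + y) ≤ w x * w y) (N : ℕ) :
    w 0 * ∑ m ∈ range N, (∑ x ∈ range (m + 1), c x) * w m
      ≤ (∑ x ∈ range N, c x * w x) * (∑ y ∈ range N, w y) := by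
  have h1 : (∑ x ∈ range N, c x * w x) * (∑ y ∈ range N, w y)
      = ∑ x ∈ range N, c x * ∑ y ∈ range N, w x * w y := by
    rw [Finset.sum_mul]
    apply Finset.sum_congr rfl
    intro x _
    rw [mul_assoc, Finset.mul_sum]
  rw [h1]
  have h2 : ∀ x ∈ range N, c x * ∑ m ∈ Ico x N, w 0 * w m ≤ c x * ∑ y ∈ range N, w x * w y := by
    intro x _
    apply mul_le_mul_of_nonneg_left _ (hc x)
    rw [Finset.sum_Ico_eq_sum_range]
    calc ∑ k ∈ range (N - x), w 0 * w (x + k) ≤ ∑ k ∈ range N, w 0 * w (x + k) := by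
          apply Finset.sum_le_sum_of_subset_of_nonneg
          · apply Finset.range_subset_range.mpr; omega
          · intro i _ _; exact mul_nonneg (hw _) (hw _)
      _ ≤ ∑ y ∈ range N, w x * w y := Finset.sum_le_sum (fun y _ => hsub x y)
  refine le_trans (le_of_eq ?_) (Finset.sum_le_sum h2)
  have h3 := Finset.sum_Ico_Ico_comm 0 N (fun x m => c x * (w 0 * w m))
  simp only [← Finset.range_eq_Ico] at h3
  rw [Finset.mul_sum]
  simp only [Finset.mul_sum, Finset.sum_mul]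
  rw [h3]
  apply Finset.sum_congr rfl
  intro m _
  apply Finset.sum_congr rfl
  intro x _
  ring

lemma moment_bound (w : ℕ → ℝ) (hw : ∀ n, 0 ≤ w n)
    (hsub : ∀ x y, w 0 * w (x + y) ≤ w x * w y) (N : ℕ) (hA : ∑ y ∈ range N, w y ≤ 1) :
    w 0 ^ 2 * ∑ m ∈ range N, (m:ℝ) ^ 2 * w m ≤ 2 := by
  set A := ∑ y ∈ range N, w y with hAdef
  have hA0 : 0 ≤ A := Finset.sum_nonneg (fun i _ => hw i)
  have h1 := cauchy_lb w (fun _ => 1) hw (fun _ => zero_le_one) hsub N
  have h2 := cauchy_lb w (fun x => (x:ℝ) + 1) hw (fun x => by positivity) hsub N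
  simp only [one_mul, Finset.sum_const, Finset.card_range, nsmul_eq_mul, mul_one] at h1
  rw [← hAdef] at h1 h2
  have e : ∀ m : ℕ, ∑ x ∈ range (m + 1), ((x:ℝ) + 1) = ((m:ℝ) + 1) * (m + 2) / 2 := by
    intro m
    induction m with
    | zero => simp
    | succ m ih => rw [Finset.sum_range_succ, ih]; push_cast; ring
  simp only [e] at h2
  have h3 : ∑ m ∈ range N, (m:ℝ) ^ 2 * w m ≤ 2 * ∑ m ∈ range N, (((m:ℝ) + 1) * (m + 2) / 2) * w m := by
    rw [Finset.mul_sum]
    apply Finset.sum_le_sum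
    intro m _
    have := hw m
    have h5 : (m:ℝ)^2 ≤ ((m:ℝ) + 1) * (m + 2) := by nlinarith [(Nat.cast_nonneg m : (0:ℝ) ≤ m)]
    nlinarith [mul_le_mul_of_nonneg_right h5 this]
  have hB0 : 0 ≤ ∑ m ∈ range N, (((m:ℕ):ℝ) + 1) * w m :=
    Finset.sum_nonneg (fun i _ => mul_nonneg (by positivity) (hw i))
  have h1' : w 0 * ∑ m ∈ range N, ((m:ℝ) + 1) * w m ≤ A * A := by
    simpa using h1
  have hw0 := hw 0
  calc w 0 ^ 2 * ∑ m ∈ range N, (m:ℝ) ^ 2 * w m
      ≤ w 0 ^ 2 * (2 * ∑ m ∈ range N, (((m:ℝ) + 1) * (m + 2) / 2) * w m) :=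
        mul_le_mul_of_nonneg_left h3 (by positivity)
    _ = 2 * (w 0 * (w 0 * ∑ m ∈ range N, (((m:ℝ) + 1) * (m + 2) / 2) * w m)) := by ring
    _ ≤ 2 * (w 0 * ((∑ x ∈ range N, ((x:ℝ) + 1) * w x) * A)) := by gcongr
    _ = 2 * ((w 0 * ∑ m ∈ range N, ((m:ℝ) + 1) * w m) * A) := by ring
    _ ≤ 2 * ((A * A) * A) := by gcongr
    _ ≤ 2 * ((1 * 1) * 1) := by gcongr
    _ = 2 := by norm_num

end Pool.Agent.H44.Ritt
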