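import Mathlib
import Pool.Agent.H44.RittA

set_option autoImplicit false

namespace Pool.Agent.H44.Ritt

open Finset

/-- linear functional `F ↦ ∑ φ x F x` -/
noncomputable def Lam (φ : ℤ → ℝ) : R →ₗ[ℝ] ℝ :=
  (Finsupp.linearCombination ℝ φ) ∘ₗ (AddMonoidAlgebra.coeffLinearEquiv ℝ).toLinearMap

lemma Lam_T (φ : ℤ → ℝ) (s : ℤ) : Lam φ (T s) = φ s := by
  change Finsupp.linearCombination ℝ φ (Finsupp.single s 1) = φ s
  simp

lemma T_mul_T (s t : ℤ) : T s * T t = T (s + t) := by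
  unfold T
  rw [AddMonoidAlgebra.single_mul_single, one_mul]

lemma Lam_T_mul (φ : ℤ → ℝ) (s : ℤ) (F : R) :
    Lam φ (T s * F) = Lam (fun x => φ (x + s)) F := by
  induction F using AddMonoidAlgebra.induction_on with
  | of m =>
    have : (AddMonoidAlgebra.of ℝ ℤ (Multiplicative.ofAdd m) : R) = T m := rfl
    rw [this, T_mul_T, Lam_T, Lam_T, add_comm]
  | add x y hx hy => rw [mul_add, map_add, map_add, hx, hy]
  | smul r x hx => rw [mul_smul_comm, map_smul, map_smul, hx]

lemma Lam_eq_sum (φ : ℤ → ℝ) (F : R) (t : Finset ℤ) (h : ∀ x, x ∉ t → F.coeff x = 0) :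
    Lam φ F = ∑ x ∈ t, F.coeff x * φ x := by
  have : Lam φ F = F.coeff.sum fun x a => a • φ x := rfl
  rw [this, Finsupp.sum]
  have hs : F.coeff.support ⊆ t := by
    intro x hx
    by_contra hxt
    exact (Finsupp.mem_support_iff.mp hx) (h x hxt)
  refine Finset.sum_subset hs ?_
  intro x _ hx
  simp [Finsupp.notMem_support_iff.mp hx]

lemma exists_bound (F : R) : ∃ N : ℕ, ∀ x : ℤ, (N : ℤ) < |x| → F.coeff x = 0 := by
  refine ⟨F.coeff.support.sup (fun x => x.natAbs), ?_⟩
  intro x hx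
  by_contra h
  have h1 : x ∈ F.coeff.support := Finsupp.mem_support_iff.mpr h
  have h2 := Finset.le_sup (f := fun x : ℤ => x.natAbs) h1
  have h3 : (x.natAbs : ℤ) = |x| := Int.natCast_natAbs x
  have h4 : ((x.natAbs : ℕ) : ℤ) ≤ ((F.coeff.support.sup (fun x => x.natAbs) : ℕ) : ℤ) := by
    exact_mod_cast h2
  omega

/-- Total mass. -/
noncomputable def mass : R →ₗ[ℝ] ℝ := Lam (fun _ => 1)

/-- second moment -/
noncomputable def V : R →ₗ[ℝ] ℝ := Lam (fun x => (x:ℝ)^2)

/-- first moment -/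
noncomputable def M1 : R →ₗ[ℝ] ℝ := Lam (fun x => (x:ℝ))

lemma mass_T_mul (s : ℤ) (F : R) : mass (T s * F) = mass F := by
  unfold mass; rw [Lam_T_mul]

lemma mass_D_mul (k : ℕ) (F : R) : mass (D k * F) = (2 * (k:ℝ) + 1) * mass F := by
  unfold D
  rw [Finset.sum_mul, map_sum]
  simp only [mass_T_mul, Finset.sum_const, Int.card_Icc, nsmul_eq_mul]
  congr 1
  have : ((k:ℤ) + 1 - -(k:ℤ)).toNat = 2 * k + 1 := by omega
  rw [this]; push_cast; ring

lemma mass_u_mul (k : ℕ) (F : R) : mass (u k * F) = mass F := by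
  unfold u
  rw [smul_mul_assoc, map_smul, mass_D_mul, smul_eq_mul]
  have : (2 * (k:ℝ) + 1) ≠ 0 := by positivity
  field_simp

lemma mass_one : mass (1 : R) = 1 := by
  have : (1 : R) = T 0 := rfl
  rw [this]; unfold mass; rw [Lam_T]

lemma mass_mul (F G : R) : mass (F * G) = mass F * mass G := by
  induction F using AddMonoidAlgebra.induction_on with
  | of m =>
    have : (AddMonoidAlgebra.of ℝ ℤ (Multiplicative.ofAdd m) : R) = T m := rfl
    rw [this, mass_T_mul]
    have h2 : mass (T m) = 1 := by unfold mass; rw [Lam_T]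
    rw [h2, one_mul]
  | add x y hx hy => rw [add_mul, map_add, map_add, hx, hy]; ring
  | smul r x hx => rw [smul_mul_assoc, map_smul, map_smul, hx, smul_eq_mul, smul_eq_mul]; ring

lemma Lam_sq (s : ℤ) (F : R) : V (T s * F) = V F + 2 * s * M1 F + (s:ℝ)^2 * mass F := by
  unfold V M1 mass
  rw [Lam_T_mul]
  obtain ⟨N, hN⟩ := exists_bound F
  have h : ∀ x, x ∉ Icc (-(N:ℤ)) N → F.coeff x = 0 := by
    intro x hx
    apply hN
    rw [Finset.mem_Icc] at hx
    by_contra h
    push Not at h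
    exact hx (abs_le.mp h)
  rw [Lam_eq_sum _ F _ h, Lam_eq_sum _ F _ h, Lam_eq_sum _ F _ h, Lam_eq_sum _ F _ h,
    Finset.mul_sum, Finset.mul_sum, ← Finset.sum_add_distrib, ← Finset.sum_add_distrib]
  apply Finset.sum_congr rfl
  intro x _
  push_cast
  ring

lemma sum_sq_Icc (k : ℕ) : ∑ s ∈ Icc (-(k:ℤ)) k, ((s:ℝ))^2 = (2 * (k:ℝ) + 1) * (k * (k + 1) / 3) := by
  induction k with
  | zero => simp
  | succ k ih =>
    rw [Nat.cast_add, Nat.cast_one, Finset.sum_Icc_succ_eq_add_endpoints, ih]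
    push_cast
    ring

lemma sum_id_Icc (k : ℕ) : ∑ s ∈ Icc (-(k:ℤ)) k, ((s:ℝ)) = 0 := by
  induction k with
  | zero => simp
  | succ k ih =>
    rw [Nat.cast_add, Nat.cast_one, Finset.sum_Icc_succ_eq_add_endpoints, ih]
    push_cast
    ring

lemma V_u_mul (k : ℕ) (F : R) : V (u k * F) = V F + ((k:ℝ) * (k + 1) / 3) * mass F := by
  unfold u D
  rw [smul_mul_assoc, map_smul, Finset.sum_mul, map_sum]
  simp only [Lam_sq]
  rw [Finset.sum_add_distrib, Finset.sum_add_distrib, ← Finset.sum_mul, ← Finset.sum_mul,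
    ← Finset.mul_sum, sum_sq_Icc, sum_id_Icc]
  simp only [Finset.sum_const, Int.card_Icc, nsmul_eq_mul, smul_eq_mul]
  have : ((k:ℤ) + 1 - -(k:ℤ)).toNat = 2 * k + 1 := by omega
  rw [this]; push_cast
  have : (2 * (k:ℝ) + 1) ≠ 0 := by positivity
  field_simp
  ring

/-- nonneg, even, PF2 -/
structure Good (w : R) : Prop where
  nonneg : ∀ x, 0 ≤ w.coeff x
  even : ∀ x, w.coeff (-x) = w.coeff x
  pf : PF w.coeff
  mass_eq : mass w = 1

lemma Good_one : Good 1 where
  nonneg x := by rw [coeff_one]; split_ifs <;> norm_num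
  even x := by rw [coeff_one, coeff_one]; simp
  pf := by
    intro x y x' y' h1 h2
    simp only [coeff_one]
    by_cases hx : x' = 0 ∧ y' = 0
    · obtain ⟨rfl, rfl⟩ := hx
      rw [sub_zero, abs_zero] at h2
      have := abs_nonpos_iff.mp h2
      have h3 : x = 0 := by omega
      have h4 : y = 0 := by omega
      simp [h3, h4]
    · have : (if x' = 0 then (1:ℝ) else 0) * (if y' = 0 then (1:ℝ) else 0) = 0 := by
        by_cases h3 : x' = 0
        · have h4 : y' ≠ 0 := fun h => hx ⟨h3, h⟩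
          simp [h4]
        · simp [h3]
      rw [this]
      split_ifs <;> norm_num
  mass_eq := mass_one

lemma win_eq (k : ℕ) (w : ℤ → ℝ) (x : ℤ) : ∑ s ∈ Icc (-(k:ℤ)) k, w (x - s) = win k w x := by
  unfold win
  refine (Finset.sum_bij (fun (p : ℕ) _ => ((k:ℤ) - p)) ?_ ?_ ?_ ?_).symm
  · intro p hp
    rw [Finset.mem_range] at hp
    rw [Finset.mem_Icc]
    omega
  · intro a _ b _ h
    simpa using h
  · intro s hs
    rw [Finset.mem_Icc] at hs
    refine ⟨((k:ℤ) - s).toNat, ?_, ?_⟩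
    · rw [Finset.mem_range]; omega
    · rw [Int.toNat_of_nonneg (by omega)]; ring
  · intro p _
    congr 1
    ring

lemma Good_u_mul (k : ℕ) (w : R) (hw : Good w) : Good (u k * w) where
  nonneg x := by
    rw [coeff_u_mul]
    exact mul_nonneg (by positivity) (Finset.sum_nonneg (fun i _ => hw.nonneg _))
  even x := by
    rw [coeff_u_mul, coeff_u_mul]
    congr 1
    refine Finset.sum_bij (fun (p : ℤ) _ => -p) ?_ ?_ ?_ ?_
    · intro p hp
      rw [Finset.mem_Icc] at hp ⊢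
      omega
    · intro a _ b _ h
      simpa using h
    · intro s hs
      rw [Finset.mem_Icc] at hs
      exact ⟨-s, by rw [Finset.mem_Icc]; omega, by simp⟩
    · intro p _
      rw [← hw.even]
      congr 1
      ring
  pf := by
    have h : (u k * w).coeff = fun x => (1 / (2 * (k:ℝ) + 1)) * win k w.coeff x := by
      funext x
      rw [coeff_u_mul, win_eq]
    rw [h]
    intro x y x' y' h1 h2
    have := PF_win k w.coeff hw.pf x y x' y' h1 h2
    have h3 : (0:ℝ) ≤ (1 / (2 * (k:ℝ) + 1)) * (1 / (2 * (k:ℝ) + 1)) := by positivity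
    nlinarith [mul_le_mul_of_nonneg_left this h3]
  mass_eq := by rw [mass_u_mul, hw.mass_eq]

lemma Good.var_bound (w : R) (hw : Good w) : w.coeff 0 ^ 2 * V w ≤ 4 := by
  obtain ⟨N, hN⟩ := exists_bound w
  have h : ∀ x, x ∉ Icc (-(N:ℤ)) N → w.coeff x = 0 := by
    intro x hx
    apply hN
    rw [Finset.mem_Icc] at hx
    by_contra h
    push Not at h
    exact hx (abs_le.mp h)
  have hV : V w = ∑ x ∈ Icc (-(N:ℤ)) N, w.coeff x * (x:ℝ)^2 := Lam_eq_sum _ w _ h
  have hm : mass w = ∑ x ∈ Icc (-(N:ℤ)) N, w.coeff x * 1 := Lam_eq_sum _ w _ h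
  have hA : ∑ y ∈ range (N + 1), w.coeff (y : ℤ) ≤ 1 := by
    rw [← hw.mass_eq, hm]
    simp only [mul_one]
    have : ∑ y ∈ range (N + 1), w.coeff (y : ℤ)
        = ∑ y ∈ (range (N + 1)).map Nat.castEmbedding, w.coeff y := by
      rw [Finset.sum_map]; rfl
    rw [this]
    apply Finset.sum_le_sum_of_subset_of_nonneg
    · intro x hx
      rw [Finset.mem_map] at hx
      obtain ⟨a, ha, rfl⟩ := hx
      rw [Finset.mem_range] at ha
      rw [Finset.mem_Icc]
      simp only [Nat.castEmbedding_apply]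
      omega
    · intro i _ _; exact hw.nonneg i
  have hsub : ∀ x y : ℕ, w.coeff ((0:ℕ):ℤ) * w.coeff ((x + y : ℕ) : ℤ) ≤ w.coeff (x:ℤ) * w.coeff (y:ℤ) := by
    intro x y
    apply hw.pf
    · push_cast; ring
    · rw [abs_le]
      constructor
      · rw [abs_sub_comm]
        have := le_abs_self (((x + y : ℕ) : ℤ) - ((0:ℕ):ℤ))
        push_cast at this ⊢
        omega
      · rw [abs_sub_comm]
        have := le_abs_self (((x + y : ℕ) : ℤ) - ((0:ℕ):ℤ))
        push_cast at this ⊢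
        omega
  have hmb := moment_bound (fun n : ℕ => w.coeff (n:ℤ)) (fun n => hw.nonneg _) hsub (N + 1) hA
  have hev : (fun x : ℤ => w.coeff x * (x:ℝ)^2).Even := by
    intro x
    simp only
    rw [hw.even]; push_cast; ring
  rw [hV, Finset.sum_Icc_of_even_eq_range hev]
  simp only [Nat.cast_zero, Int.cast_natCast, nsmul_eq_mul, Int.cast_zero] at hmb ⊢
  have e : ∑ x ∈ range (N + 1), w.coeff (x:ℤ) * (x:ℝ)^2 = ∑ x ∈ range (N + 1), (x:ℝ)^2 * w.coeff (x:ℤ) := by
    apply Finset.sum_congr rfl; intro x _; ring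
  rw [e]
  push_cast
  nlinarith

end Pool.Agent.H44.Ritt
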