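import Mathlib
import Pool.Agent.H44.RittB

set_option autoImplicit false

namespace Pool.Agent.H44.Ritt

open Finset

/-- The cone generated by uniform distributions. -/
inductive Cone : R → Prop
  | base (k : ℕ) : Cone (u k)
  | zero : Cone 0
  | add (F G : R) : Cone F → Cone G → Cone (F + G)
  | smul (c : ℝ) (F : R) : 0 ≤ c → Cone F → Cone (c • F)

lemma Cone.sum {ι : Type*} (s : Finset ι) (F : ι → R) (h : ∀ i ∈ s, Cone (F i)) :
    Cone (∑ i ∈ s, F i) := by
  classical
  induction s using Finset.induction_on with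
  | empty => simpa using Cone.zero
  | insert i s hi ih =>
    rw [Finset.sum_insert hi]
    exact Cone.add _ _ (h i (Finset.mem_insert_self i s))
      (ih (fun j hj => h j (Finset.mem_insert_of_mem hj)))

lemma Cone_D (k : ℕ) : Cone (D k) := by
  have : D k = (2 * (k:ℝ) + 1) • u k := by
    unfold u
    rw [smul_smul]
    have : (2 * (k:ℝ) + 1) ≠ 0 := by positivity
    rw [mul_one_div_cancel this, one_smul]
  rw [this]
  exact Cone.smul _ _ (by positivity) (Cone.base k)

lemma Cone_u_mul_u (a b : ℕ) : Cone (u a * u b) := by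
  unfold u
  rw [smul_mul_smul_comm, D_mul_D]
  exact Cone.smul _ _ (by positivity) (Cone.sum _ _ (fun i _ => Cone_D i))

lemma Cone.mul {F G : R} (hF : Cone F) (hG : Cone G) : Cone (F * G) := by
  induction hF with
  | base a =>
    induction hG with
    | base b => exact Cone_u_mul_u a b
    | zero => rw [mul_zero]; exact Cone.zero
    | add F G _ _ h1 h2 => rw [mul_add]; exact Cone.add _ _ h1 h2
    | smul c F hc _ h => rw [mul_smul_comm]; exact Cone.smul _ _ hc h
  | zero => rw [zero_mul]; exact Cone.zero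
  | add F G _ _ h1 h2 => rw [add_mul]; exact Cone.add _ _ h1 h2
  | smul c F hc _ h => rw [smul_mul_assoc]; exact Cone.smul _ _ hc h

lemma Cone_one : Cone 1 := by rw [← u_zero]; exact Cone.base 0

lemma Cone.nonneg {F : R} (hF : Cone F) : ∀ x, 0 ≤ F.coeff x := by
  induction hF with
  | base k => intro x; rw [coeff_u]; split_ifs <;> positivity
  | zero => intro x; simp
  | add F G _ _ h1 h2 => intro x; simpa using add_nonneg (h1 x) (h2 x)
  | smul c F hc _ h => intro x; simpa using mul_nonneg hc (h x)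

lemma mass_u (k : ℕ) : mass (u k) = 1 := by
  have := mass_u_mul k 1
  rwa [mul_one, mass_one] at this

lemma Cone.mass_nonneg {F : R} (hF : Cone F) : 0 ≤ mass F := by
  induction hF with
  | base k => rw [mass_u]; norm_num
  | zero => simp
  | add F G _ _ h1 h2 => rw [map_add]; exact add_nonneg h1 h2
  | smul c F hc _ h => rw [map_smul]; exact mul_nonneg hc h

/-- domination by a cone element of mass at most `c` -/
def Dom (F : R) (c : ℝ) : Prop :=
  ∃ H : R, Cone H ∧ mass H ≤ c ∧ ∀ x, |F.coeff x| ≤ H.coeff x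

lemma Dom.nonneg {F : R} {c : ℝ} (h : Dom F c) : 0 ≤ c := by
  obtain ⟨H, hH, hm, _⟩ := h
  exact le_trans hH.mass_nonneg hm

lemma Dom.mono {F : R} {c d : ℝ} (h : Dom F c) (hcd : c ≤ d) : Dom F d := by
  obtain ⟨H, hH, hm, hb⟩ := h
  exact ⟨H, hH, hm.trans hcd, hb⟩

lemma Dom_of_cone {H : R} (hH : Cone H) : Dom H (mass H) :=
  ⟨H, hH, le_rfl, fun x => le_of_eq (abs_of_nonneg (hH.nonneg x))⟩

lemma Dom_zero : Dom 0 0 := ⟨0, Cone.zero, by simp, fun x => by simp⟩

lemma Dom.add {F G : R} {c d : ℝ} (hF : Dom F c) (hG : Dom G d) : Dom (F + G) (c + d) := by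
  obtain ⟨H, hH, hm, hb⟩ := hF
  obtain ⟨K, hK, hm', hb'⟩ := hG
  refine ⟨H + K, Cone.add _ _ hH hK, by rw [map_add]; exact add_le_add hm hm', fun x => ?_⟩
  have e1 : (F + G).coeff x = F.coeff x + G.coeff x := by simp
  have e2 : (H + K).coeff x = H.coeff x + K.coeff x := by simp
  rw [e1, e2]
  exact (abs_add_le _ _).trans (add_le_add (hb x) (hb' x))

lemma Dom.smul {F : R} {c : ℝ} (a : ℝ) (hF : Dom F c) : Dom (a • F) (|a| * c) := by
  obtain ⟨H, hH, hm, hb⟩ := hF
  refine ⟨|a| • H, Cone.smul _ _ (abs_nonneg a) hH, ?_, fun x => ?_⟩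
  · rw [map_smul, smul_eq_mul]; exact mul_le_mul_of_nonneg_left hm (abs_nonneg a)
  · have e1 : (a • F).coeff x = a * F.coeff x := by simp
    have e2 : (|a| • H).coeff x = |a| * H.coeff x := by simp
    rw [e1, e2, abs_mul]
    exact mul_le_mul_of_nonneg_left (hb x) (abs_nonneg a)

lemma Dom.neg {F : R} {c : ℝ} (hF : Dom F c) : Dom (-F) c := by
  obtain ⟨H, hH, hm, hb⟩ := hF
  exact ⟨H, hH, hm, fun x => by simpa using hb x⟩

lemma Dom.sub {F G : R} {c d : ℝ} (hF : Dom F c) (hG : Dom G d) : Dom (F - G) (c + d) := by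
  rw [sub_eq_add_neg]; exact hF.add hG.neg

lemma Dom.sum {ι : Type*} (s : Finset ι) (F : ι → R) (c : ι → ℝ) (h : ∀ i ∈ s, Dom (F i) (c i)) :
    Dom (∑ i ∈ s, F i) (∑ i ∈ s, c i) := by
  classical
  induction s using Finset.induction_on with
  | empty => simpa using Dom_zero
  | insert i s hi ih =>
    rw [Finset.sum_insert hi, Finset.sum_insert hi]
    exact (h i (Finset.mem_insert_self i s)).add
      (ih (fun j hj => h j (Finset.mem_insert_of_mem hj)))

lemma coeff_mul_eq (F G : R) (x : ℤ) :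
    (F * G).coeff x = F.coeff.sum fun h r => r * G.coeff (-h + x) :=
  AddMonoidAlgebra.coeff_mul_apply_left F G x

lemma abs_coeff_mul_le (F G H K : R) (hF : ∀ x, |F.coeff x| ≤ H.coeff x)
    (hG : ∀ x, |G.coeff x| ≤ K.coeff x) (x : ℤ) : |(F * G).coeff x| ≤ (H * K).coeff x := by
  rw [coeff_mul_eq, coeff_mul_eq, Finsupp.sum, Finsupp.sum]
  have hsub : F.coeff.support ⊆ H.coeff.support := by
    intro y hy
    rw [Finsupp.mem_support_iff] at hy ⊢
    intro h0
    have := hF y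
    rw [h0] at this
    exact hy (abs_nonpos_iff.mp this)
  calc |∑ h ∈ F.coeff.support, F.coeff h * G.coeff (-h + x)|
      ≤ ∑ h ∈ F.coeff.support, |F.coeff h * G.coeff (-h + x)| := Finset.abs_sum_le_sum_abs _ _
    _ ≤ ∑ h ∈ F.coeff.support, H.coeff h * K.coeff (-h + x) := by
        apply Finset.sum_le_sum
        intro h _
        rw [abs_mul]
        exact mul_le_mul (hF h) (hG _) (abs_nonneg _) (le_trans (abs_nonneg _) (hF h))
    _ ≤ ∑ h ∈ H.coeff.support, H.coeff h * K.coeff (-h + x) := by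
        apply Finset.sum_le_sum_of_subset_of_nonneg hsub
        intro h _ _
        exact mul_nonneg (le_trans (abs_nonneg _) (hF h)) (le_trans (abs_nonneg _) (hG _))

lemma Dom.mul {F G : R} {c d : ℝ} (hF : Dom F c) (hG : Dom G d) : Dom (F * G) (c * d) := by
  have hc := hF.nonneg
  obtain ⟨H, hH, hm, hb⟩ := hF
  obtain ⟨K, hK, hm', hb'⟩ := hG
  refine ⟨H * K, hH.mul hK, ?_, abs_coeff_mul_le F G H K hb hb'⟩
  rw [mass_mul]
  exact mul_le_mul hm hm' hK.mass_nonneg hc

lemma Dom_of_bound (F : R) (M : ℝ) (L : ℕ) (hM : 0 ≤ M) (h1 : ∀ x, |F.coeff x| ≤ M)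
    (h2 : ∀ x : ℤ, (L:ℤ) < |x| → F.coeff x = 0) : Dom F (M * (2 * (L:ℝ) + 1)) := by
  refine ⟨(M * (2 * (L:ℝ) + 1)) • u L, Cone.smul _ _ (by positivity) (Cone.base L), ?_, fun x => ?_⟩
  · rw [map_smul, mass_u, smul_eq_mul, mul_one]
  · have e : ((M * (2 * (L:ℝ) + 1)) • u L).coeff x = (M * (2 * (L:ℝ) + 1)) * (u L).coeff x := by
      simp
    rw [e, coeff_u]
    split_ifs with hx
    · have : (M * (2 * (L:ℝ) + 1)) * (1 / (2 * (L:ℝ) + 1)) = M := by
        have : (2 * (L:ℝ) + 1) ≠ 0 := by positivity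
        field_simp
      rw [this]
      exact h1 x
    · push Not at hx
      rw [h2 x hx]; simp

/-! ### second differences -/

lemma second_diff (g : ℤ → ℝ) (M : ℝ) (hM : ∀ y, |2 * g y - g (y - 1) - g (y + 1)| ≤ M)
    (s : ℕ) (x : ℤ) : |2 * g x - g (x - s) - g (x + s)| ≤ (s:ℝ)^2 * M := by
  have hB : ∀ (s : ℕ) (x : ℤ),
      |g (x + s + 1) - g (x + s) - g (x - s) + g (x - s - 1)| ≤ (2 * (s:ℝ) + 1) * M := by
    intro s
    induction s with
    | zero =>
      intro x
      have := hM x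
      simp only [Nat.cast_zero, add_zero, sub_zero, mul_zero, zero_add, one_mul]
      rw [← abs_neg] at this
      convert this using 2
      ring
    | succ s ih =>
      intro x
      have h1 := ih x
      have h2 := hM (x + s + 1)
      have h3 := hM (x - s - 1)
      have e2 : x + (s:ℤ) + 1 - 1 = x + s := by ring
      have e3 : x - (s:ℤ) - 1 + 1 = x - s := by ring
      rw [e2] at h2
      rw [e3] at h3
      push_cast
      have e4 : x + ((s:ℤ) + 1) + 1 = x + s + 1 + 1 := by ring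
      have e5 : x + ((s:ℤ) + 1) = x + s + 1 := by ring
      have e6 : x - ((s:ℤ) + 1) = x - s - 1 := by ring
      rw [e4, e5, e6]
      rw [abs_le] at h1 h2 h3 ⊢
      constructor <;> linarith [h1.1, h1.2, h2.1, h2.2, h3.1, h3.2]
  induction s with
  | zero => simp; ring_nf
  | succ s ih =>
    have h1 := hB s x
    push_cast
    have e5 : x + ((s:ℤ) + 1) = x + s + 1 := by ring
    have e6 : x - ((s:ℤ) + 1) = x - s - 1 := by ring
    rw [e5, e6]
    rw [abs_le] at ih h1 ⊢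
    constructor <;> nlinarith [ih.1, ih.2, h1.1, h1.2]

lemma coeff_one_sub_u_mul (k : ℕ) (G : R) (x : ℤ) :
    ((1 - u k) * G).coeff x =
      (1 / (2 * (k:ℝ) + 1)) * ∑ s ∈ Icc (-(k:ℤ)) k, (G.coeff x - G.coeff (x - s)) := by
  rw [sub_mul, one_mul, AddMonoidAlgebra.coeff_sub, Finsupp.sub_apply, coeff_u_mul,
    Finset.sum_sub_distrib]
  simp only [Finset.sum_const, Int.card_Icc, nsmul_eq_mul]
  have : ((k:ℤ) + 1 - -(k:ℤ)).toNat = 2 * k + 1 := by omega
  rw [this]; push_cast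
  have : (2 * (k:ℝ) + 1) ≠ 0 := by positivity
  field_simp

lemma sup_bound (k : ℕ) (G : R) (M : ℝ)
    (hM : ∀ y, |2 * G.coeff y - G.coeff (y - 1) - G.coeff (y + 1)| ≤ M) (x : ℤ) :
    |((1 - u k) * G).coeff x| ≤ ((k:ℝ) * (k + 1) / 6) * M := by
  rw [coeff_one_sub_u_mul]
  have hsym : ∑ s ∈ Icc (-(k:ℤ)) k, (G.coeff x - G.coeff (x - s))
      = ∑ s ∈ Icc (-(k:ℤ)) k, (G.coeff x - G.coeff (x + s)) := by
    refine Finset.sum_bij (fun (p : ℤ) _ => -p) ?_ ?_ ?_ ?_
    · intro p hp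
      rw [Finset.mem_Icc] at hp ⊢
      omega
    · intro a _ b _ h
      simpa using h
    · intro s hs
      rw [Finset.mem_Icc] at hs
      exact ⟨-s, by rw [Finset.mem_Icc]; omega, by simp⟩
    · intro p _
      simp [sub_eq_add_neg]
  have h2 : 2 * ∑ s ∈ Icc (-(k:ℤ)) k, (G.coeff x - G.coeff (x - s))
      = ∑ s ∈ Icc (-(k:ℤ)) k, (2 * G.coeff x - G.coeff (x - s) - G.coeff (x + s)) := by
    rw [two_mul]
    nth_rw 2 [hsym]
    rw [← Finset.sum_add_distrib]
    apply Finset.sum_congr rfl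
    intro s _
    ring
  have h3 : |∑ s ∈ Icc (-(k:ℤ)) k, (2 * G.coeff x - G.coeff (x - s) - G.coeff (x + s))|
      ≤ ∑ s ∈ Icc (-(k:ℤ)) k, ((s:ℝ))^2 * M := by
    refine (Finset.abs_sum_le_sum_abs _ _).trans (Finset.sum_le_sum ?_)
    intro s _
    have := second_diff G.coeff M hM s.natAbs x
    have e : ((s.natAbs : ℝ))^2 = ((s:ℝ))^2 := by
      rw [Nat.cast_natAbs, Int.cast_abs, sq_abs]
    rw [e] at this
    rcases Int.natAbs_eq s with h | h
    · have h' : (s.natAbs : ℤ) = s := h.symm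
      rw [h'] at this; exact this
    · have h' : (s.natAbs : ℤ) = -s := by omega
      rw [h'] at this
      simp only [sub_neg_eq_add, ← sub_eq_add_neg] at this
      rw [abs_le] at this ⊢
      constructor <;> linarith [this.1, this.2]
  rw [← Finset.sum_mul, sum_sq_Icc] at h3
  rw [abs_mul, abs_of_nonneg (by positivity : (0:ℝ) ≤ 1 / (2 * (k:ℝ) + 1))]
  have h4 : |∑ s ∈ Icc (-(k:ℤ)) k, (G.coeff x - G.coeff (x - s))|
      ≤ (2 * (k:ℝ) + 1) * (k * (k + 1) / 6) * M := by
    have : |2 * ∑ s ∈ Icc (-(k:ℤ)) k, (G.coeff x - G.coeff (x - s))|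
      ≤ (2 * (k:ℝ) + 1) * (k * (k + 1) / 3) * M := by rw [h2]; exact h3
    rw [abs_mul, abs_of_pos (by norm_num : (0:ℝ) < 2)] at this
    linarith
  have h5 : (0:ℝ) < 2 * (k:ℝ) + 1 := by positivity
  calc 1 / (2 * (k:ℝ) + 1) * |∑ s ∈ Icc (-(k:ℤ)) k, (G.coeff x - G.coeff (x - s))|
      ≤ 1 / (2 * (k:ℝ) + 1) * ((2 * (k:ℝ) + 1) * (k * (k + 1) / 6) * M) := by gcongr
    _ = ((k:ℝ) * (k + 1) / 6) * M := by field_simp

end Pool.Agent.H44.Ritt
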