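import Mathlib
import Pool.Agent.H44.RittC

set_option autoImplicit false

namespace Pool.Agent.H44.Ritt

open Finset

lemma one_sub_T_mul_D (a : ℕ) : (1 - T 1) * D a = T (-(a:ℤ)) - T ((a:ℤ) + 1) := by
  ext x
  rw [sub_mul, one_mul, AddMonoidAlgebra.coeff_sub, AddMonoidAlgebra.coeff_sub,
    Finsupp.sub_apply, Finsupp.sub_apply, coeff_T_mul, coeff_D, coeff_D, coeff_T, coeff_T]
  simp only [abs_le]
  split_ifs <;> first | omega | norm_num

lemma one_sub_T_neg_mul_D (a : ℕ) : (1 - T (-1)) * D a = T (a:ℤ) - T (-(a:ℤ) - 1) := by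
  ext x
  rw [sub_mul, one_mul, AddMonoidAlgebra.coeff_sub, AddMonoidAlgebra.coeff_sub,
    Finsupp.sub_apply, Finsupp.sub_apply, coeff_T_mul, coeff_D, coeff_D, coeff_T, coeff_T]
  simp only [abs_le]
  split_ifs <;> first | omega | norm_num

lemma u_coeff_bounds (c : ℕ) (x : ℤ) : 0 ≤ (u c).coeff x ∧ (u c).coeff x ≤ 1 / (2 * (c:ℝ) + 1) := by
  rw [coeff_u]
  split_ifs
  · exact ⟨by positivity, le_rfl⟩
  · exact ⟨le_rfl, by positivity⟩

lemma T_zero : T 0 = 1 := rfl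

lemma second_diff_G (a b c : ℕ) (y : ℤ) :
    |2 * (u a * u b * u c).coeff y - (u a * u b * u c).coeff (y - 1)
      - (u a * u b * u c).coeff (y + 1)|
      ≤ 4 / ((2 * (a:ℝ) + 1) * (2 * (b:ℝ) + 1) * (2 * (c:ℝ) + 1)) := by
  have e1 : 2 * (u a * u b * u c).coeff y - (u a * u b * u c).coeff (y - 1)
      - (u a * u b * u c).coeff (y + 1)
      = (((1 - T 1) * (1 - T (-1))) * (u a * u b * u c)).coeff y := by
    have : ((1 - T 1) * (1 - T (-1)) : R) = 1 + 1 - T 1 - T (-1) := by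
      have h : T 1 * T (-1) = 1 := by rw [T_mul_T]; rfl
      linear_combination h
    rw [this, sub_mul, sub_mul, add_mul, one_mul, AddMonoidAlgebra.coeff_sub,
      AddMonoidAlgebra.coeff_sub, AddMonoidAlgebra.coeff_add, Finsupp.sub_apply,
      Finsupp.sub_apply, Finsupp.add_apply, coeff_T_mul, coeff_T_mul]
    rw [sub_neg_eq_add]
    ring
  have e2 : ((1 - T 1) * (1 - T (-1))) * (u a * u b * u c)
      = ((1 / (2 * (a:ℝ) + 1)) * (1 / (2 * (b:ℝ) + 1))) •
        ((T (-(a:ℤ)) - T ((a:ℤ) + 1)) * ((T (b:ℤ) - T (-(b:ℤ) - 1)) * u c)) := by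
    rw [← one_sub_T_mul_D, ← one_sub_T_neg_mul_D]
    have h1 : u a = (1 / (2 * (a:ℝ) + 1)) • D a := rfl
    have h2 : u b = (1 / (2 * (b:ℝ) + 1)) • D b := rfl
    rw [h1, h2]
    rw [smul_mul_smul_comm, smul_mul_assoc, mul_smul_comm]
    congr 1
    ring
  rw [e1, e2]
  have e3 : ∀ F : R, (((1 / (2 * (a:ℝ) + 1)) * (1 / (2 * (b:ℝ) + 1))) • F).coeff y
      = ((1 / (2 * (a:ℝ) + 1)) * (1 / (2 * (b:ℝ) + 1))) * F.coeff y := by
    intro F; simp
  rw [e3, sub_mul, sub_mul, AddMonoidAlgebra.coeff_sub, Finsupp.sub_apply, coeff_T_mul,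
    coeff_T_mul, AddMonoidAlgebra.coeff_sub, Finsupp.sub_apply, Finsupp.sub_apply,
    coeff_T_mul, coeff_T_mul, coeff_T_mul, coeff_T_mul]
  rw [abs_mul, abs_of_nonneg (by positivity :
    (0:ℝ) ≤ (1 / (2 * (a:ℝ) + 1)) * (1 / (2 * (b:ℝ) + 1)))]
  have e4 : 4 / ((2 * (a:ℝ) + 1) * (2 * (b:ℝ) + 1) * (2 * (c:ℝ) + 1))
      = ((1 / (2 * (a:ℝ) + 1)) * (1 / (2 * (b:ℝ) + 1))) * (4 * (1 / (2 * (c:ℝ) + 1))) := by
    field_simp
  rw [e4]
  apply mul_le_mul_of_nonneg_left _ (by positivity)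
  have b1 := u_coeff_bounds c (y - -(a:ℤ) - b)
  have b2 := u_coeff_bounds c (y - -(a:ℤ) - (-(b:ℤ) - 1))
  have b3 := u_coeff_bounds c (y - ((a:ℤ) + 1) - b)
  have b4 := u_coeff_bounds c (y - ((a:ℤ) + 1) - (-(b:ℤ) - 1))
  rw [abs_le]
  constructor <;> linarith [b1.1, b1.2, b2.1, b2.2, b3.1, b3.2, b4.1, b4.2]

/-- support bound -/
def Supp (F : R) (L : ℕ) : Prop := ∀ x : ℤ, (L:ℤ) < |x| → F.coeff x = 0

lemma Supp_one : Supp 1 0 := by
  intro x hx
  rw [coeff_one, if_neg]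
  rintro rfl
  simp at hx

lemma Supp_u_mul {F : R} {L : ℕ} (k : ℕ) (h : Supp F L) : Supp (u k * F) (k + L) := by
  intro x hx
  rw [coeff_u_mul, Finset.sum_eq_zero, mul_zero]
  intro s hs
  rw [Finset.mem_Icc] at hs
  apply h
  push_cast at hx
  rw [lt_abs] at hx ⊢
  omega

lemma Supp_one_sub_u_mul {F : R} {L : ℕ} (k : ℕ) (h : Supp F L) : Supp ((1 - u k) * F) (k + L) := by
  intro x hx
  rw [sub_mul, one_mul, AddMonoidAlgebra.coeff_sub, Finsupp.sub_apply, Supp_u_mul k h x hx, sub_zero]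
  apply h
  push_cast at hx
  omega

lemma Supp_G (a b c : ℕ) : Supp (u a * u b * u c) (a + (b + c)) := by
  have h : Supp (u a * (u b * (u c * 1))) (a + (b + (c + 0))) :=
    Supp_u_mul a (Supp_u_mul b (Supp_u_mul c Supp_one))
  rw [mul_one, add_zero, ← mul_assoc] at h
  exact h

lemma Dom_u (k : ℕ) : Dom (u k) 1 := by
  have := Dom_of_cone (Cone.base k)
  rwa [mass_u] at this

lemma Dom_one : Dom 1 1 := by rw [← u_zero]; exact Dom_u 0

lemma Dom_one_sub_u (k : ℕ) : Dom (1 - u k) 2 := by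
  have := Dom_one.sub (Dom_u k)
  norm_num at this
  exact this

/-- the constant -/
noncomputable def P (a b c : ℕ) : ℝ :=
  1 / ((2 * (a:ℝ) + 1) * (2 * (b:ℝ) + 1)) + 1 / ((2 * (b:ℝ) + 1) * (2 * (c:ℝ) + 1))
    + 1 / ((2 * (a:ℝ) + 1) * (2 * (c:ℝ) + 1))

lemma Dom_three (k a b c : ℕ) :
    Dom ((1 - u k) * (u a * u b * u c)) (3 * ((k:ℝ) * (k + 1)) * P a b c) := by
  have hA : (0:ℝ) < 2 * (a:ℝ) + 1 := by positivity
  have hB : (0:ℝ) < 2 * (b:ℝ) + 1 := by positivity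
  have hC : (0:ℝ) < 2 * (c:ℝ) + 1 := by positivity
  have hP : P a b c = ((2 * (a:ℝ) + 1) + (2 * (b:ℝ) + 1) + (2 * (c:ℝ) + 1))
      / ((2 * (a:ℝ) + 1) * (2 * (b:ℝ) + 1) * (2 * (c:ℝ) + 1)) := by
    unfold P; field_simp; ring
  rcases Nat.eq_zero_or_pos k with rfl | hk
  · rw [u_zero, sub_self, zero_mul]
    simpa using Dom_zero
  by_cases hcase : k ≤ 3 * (a + b + c) + 6
  · have hc : (k:ℝ) ≤ 3 * (a + b + c) + 6 := by exact_mod_cast hcase
    have hd := Dom_of_bound ((1 - u k) * (u a * u b * u c)) _ (k + (a + (b + c)))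
      (by positivity) (sup_bound k _ _ (second_diff_G a b c))
      (Supp_one_sub_u_mul k (Supp_G a b c))
    apply hd.mono
    rw [hP]
    have e1 : (k:ℝ) * (k + 1) / 6 * (4 / ((2 * (a:ℝ) + 1) * (2 * (b:ℝ) + 1) * (2 * (c:ℝ) + 1)))
        * (2 * ((k + (a + (b + c)) : ℕ) : ℝ) + 1)
        = ((k:ℝ) * (k + 1)) / ((2 * (a:ℝ) + 1) * (2 * (b:ℝ) + 1) * (2 * (c:ℝ) + 1))
          * ((2/3) * (2 * ((k:ℝ) + (a + (b + c))) + 1)) := by
      push_cast; field_simp; ring
    have e2 : 3 * ((k:ℝ) * (k + 1)) * (((2 * (a:ℝ) + 1) + (2 * (b:ℝ) + 1) + (2 * (c:ℝ) + 1))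
      / ((2 * (a:ℝ) + 1) * (2 * (b:ℝ) + 1) * (2 * (c:ℝ) + 1)))
        = ((k:ℝ) * (k + 1)) / ((2 * (a:ℝ) + 1) * (2 * (b:ℝ) + 1) * (2 * (c:ℝ) + 1))
          * (3 * ((2 * (a:ℝ) + 1) + (2 * (b:ℝ) + 1) + (2 * (c:ℝ) + 1))) := by
      field_simp
    rw [e1, e2]
    apply mul_le_mul_of_nonneg_left _ (by positivity)
    have ha0 : (0:ℝ) ≤ a := Nat.cast_nonneg a
    have hb0 : (0:ℝ) ≤ b := Nat.cast_nonneg b
    have hc0 : (0:ℝ) ≤ c := Nat.cast_nonneg c
    linarith
  · push Not at hcase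
    have hd : Dom ((1 - u k) * (u a * u b * u c)) (2 * (1 * 1 * 1)) :=
      (Dom_one_sub_u k).mul (((Dom_u a).mul (Dom_u b)).mul (Dom_u c))
    apply hd.mono
    have hka : (2 * (a:ℝ) + 1) ≤ k := by
      have : 2 * a + 1 ≤ k := by omega
      exact_mod_cast this
    have hkb : (2 * (b:ℝ) + 1) ≤ k := by
      have : 2 * b + 1 ≤ k := by omega
      exact_mod_cast this
    have hk0 : (0:ℝ) < k := by exact_mod_cast hk
    have h1 : 1 / ((k:ℝ) * k) ≤ P a b c := by
      have : 1 / ((k:ℝ) * k) ≤ 1 / ((2 * (a:ℝ) + 1) * (2 * (b:ℝ) + 1)) := by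
        apply one_div_le_one_div_of_le (by positivity)
        exact mul_le_mul hka hkb (by positivity) (by positivity)
      have h2 : 0 ≤ 1 / ((2 * (b:ℝ) + 1) * (2 * (c:ℝ) + 1)) := by positivity
      have h3 : 0 ≤ 1 / ((2 * (a:ℝ) + 1) * (2 * (c:ℝ) + 1)) := by positivity
      unfold P
      linarith
    calc (2 * (1 * 1 * 1) : ℝ) ≤ 3 * ((k:ℝ) * k) * (1 / ((k:ℝ) * k)) := by
          rw [mul_assoc (3:ℝ), mul_one_div_cancel (by positivity)]; norm_num
      _ ≤ 3 * ((k:ℝ) * (k + 1)) * P a b c := by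
          apply mul_le_mul _ h1 (by positivity) (by positivity)
          nlinarith

lemma coeff_u_zero (a : ℕ) : (u a).coeff 0 = 1 / (2 * (a:ℝ) + 1) := by
  rw [coeff_u]; simp

lemma coeff_smul' (c : ℝ) (F : R) (x : ℤ) : (c • F).coeff x = c * F.coeff x := by simp

lemma coeff_add' (F G : R) (x : ℤ) : (F + G).coeff x = F.coeff x + G.coeff x := by simp

/-- trilinear extension -/
lemma Dom_three_cone (k : ℕ) {H1 H2 H3 : R} (h1 : Cone H1) (h2 : Cone H2) (h3 : Cone H3) :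
    Dom ((1 - u k) * (H1 * H2 * H3)) (3 * ((k:ℝ) * (k + 1)) *
      (H1.coeff 0 * H2.coeff 0 * mass H3 + H2.coeff 0 * H3.coeff 0 * mass H1
        + H1.coeff 0 * H3.coeff 0 * mass H2)) := by
  have step3 : ∀ a b : ℕ, Dom ((1 - u k) * (u a * u b * H3)) (3 * ((k:ℝ) * (k + 1)) *
      ((u a).coeff 0 * (u b).coeff 0 * mass H3 + (u b).coeff 0 * H3.coeff 0 * mass (u a)
        + (u a).coeff 0 * H3.coeff 0 * mass (u b))) := by
    intro a b
    induction h3 with
    | base c =>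
      have := Dom_three k a b c
      simp only [mass_u, coeff_u_zero, mul_one]
      unfold P at this
      convert this using 2
      simp only [one_div, mul_inv]
    | zero => simpa using Dom_zero
    | add F G _ _ hF hG =>
      have := hF.add hG
      rw [mul_add, mul_add, map_add, coeff_add']
      convert this using 1
      ring
    | smul c F hc _ hF =>
      have := hF.smul c
      rw [mul_smul_comm, mul_smul_comm, map_smul, coeff_smul', smul_eq_mul]
      rw [abs_of_nonneg hc] at this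
      convert this using 1
      ring
  have step2 : ∀ a : ℕ, Dom ((1 - u k) * (u a * H2 * H3)) (3 * ((k:ℝ) * (k + 1)) *
      ((u a).coeff 0 * H2.coeff 0 * mass H3 + H2.coeff 0 * H3.coeff 0 * mass (u a)
        + (u a).coeff 0 * H3.coeff 0 * mass H2)) := by
    intro a
    induction h2 with
    | base b => exact step3 a b
    | zero => simpa using Dom_zero
    | add F G _ _ hF hG =>
      have := hF.add hG
      rw [mul_add, add_mul, mul_add, map_add, coeff_add']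
      convert this using 1
      ring
    | smul c F hc _ hF =>
      have := hF.smul c
      rw [mul_smul_comm, smul_mul_assoc, mul_smul_comm, map_smul, coeff_smul', smul_eq_mul]
      rw [abs_of_nonneg hc] at this
      convert this using 1
      ring
  induction h1 with
  | base a => exact step2 a
  | zero => simpa using Dom_zero
  | add F G _ _ hF hG =>
    have := hF.add hG
    rw [add_mul, add_mul, mul_add, map_add, coeff_add']
    convert this using 1
    ring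
  | smul c F hc _ hF =>
    have := hF.smul c
    rw [smul_mul_assoc, smul_mul_assoc, mul_smul_comm, map_smul, coeff_smul', smul_eq_mul]
    rw [abs_of_nonneg hc] at this
    convert this using 1
    ring

end Pool.Agent.H44.Ritt
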