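import Mathlib

set_option autoImplicit false

/-!
Definitions for convolution powers of measures on the integers.
A (signed) finite measure on `ℤ` is given by its coefficient function `ℤ → ℝ`.
-/

namespace Pool.Agent.H44.RittDefs

/-- Convolution on `ℤ`: `(a * b)(k) = ∑ⱼ a(j) b(k - j)`. -/
noncomputable def conv (a b : ℤ → ℝ) (k : ℤ) : ℝ := ∑' j : ℤ, a j * b (k - j)

/-- The Dirac mass at `0`. -/
def delta (k : ℤ) : ℝ := if k = 0 then 1 else 0

/-- Convolution powers: `a^{*0} = δ₀`, `a^{*(n+1)} = a * a^{*n}`. -/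
noncomputable def convPow (a : ℤ → ℝ) : ℕ → ℤ → ℝ
  | 0 => delta
  | n + 1 => conv a (convPow a n)

/-- Convolution of a real kernel with a complex function:
`(a * f)(k) = ∑ⱼ a(j) f(k - j)`. -/
noncomputable def convC (a : ℤ → ℝ) (f : ℤ → ℂ) (k : ℤ) : ℂ := ∑' j : ℤ, (a j : ℂ) * f (k - j)

/-- `μ` is (the coefficient function of) a symmetric probability measure on `ℤ`
which is non-increasing on `ℕ`. -/
structure IsSymmNonincProb (μ : ℤ → ℝ) : Prop where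
  nonneg : ∀ n : ℤ, 0 ≤ μ n
  hasSum_one : HasSum μ 1
  symm : ∀ n : ℤ, μ (-n) = μ n
  noninc : ∀ n : ℕ, μ ((n : ℤ) + 1) ≤ μ n

/-- The Ritt property with constant `C`: for all `n ≥ 1`,
`n ‖μ^{*n} - μ^{*(n+1)}‖_{ℓ¹} ≤ C`. -/
def RittWith (μ : ℤ → ℝ) (C : ℝ) : Prop :=
  ∀ n : ℕ, 1 ≤ n →
    Summable (fun k : ℤ => |convPow μ n k - convPow μ (n + 1) k|) ∧
      (n : ℝ) * ∑' k : ℤ, |convPow μ n k - convPow μ (n + 1) k| ≤ C

/-- The maximal function `sup_{n ≥ 1} n^m |(μ^{*n} * (δ₀ - μ)^{*m} * f)(k)|`, with values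
in `[0, ∞]`. -/
noncomputable def maximalFn (μ : ℤ → ℝ) (m : ℕ) (f : ℤ → ℂ) (k : ℤ) : ENNReal :=
  ⨆ n : ℕ, ⨆ _ : 1 ≤ n, ENNReal.ofReal
    ((n : ℝ) ^ m * ‖convC (conv (convPow μ n) (convPow (fun j => delta j - μ j) m)) f k‖)

/-- The weak type maximal inequality of order `m` with constant `C`: for every `f ∈ ℓ¹(ℤ)` and
`t > 0`, the set of `k` where the maximal function is at least `t` is finite and
`t` times its cardinality is at most `C ‖f‖_{ℓ¹}`. -/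
def WeakTypeWith (μ : ℤ → ℝ) (m : ℕ) (C : ℝ) : Prop :=
  ∀ f : ℤ → ℂ, Summable (fun k => ‖f k‖) → ∀ t : ℝ, 0 < t →
    {k : ℤ | ENNReal.ofReal t ≤ maximalFn μ m f k}.Finite ∧
      t * ({k : ℤ | ENNReal.ofReal t ≤ maximalFn μ m f k}.ncard : ℝ) ≤ C * ∑' k : ℤ, ‖f k‖

end Pool.Agent.H44.RittDefs
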