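import Mathlib
import Pool.Agent.H44.RittD

set_option autoImplicit false

namespace Pool.Agent.H44.Ritt

open Finset

/-- product of uniform distributions -/
noncomputable def W {n : ℕ} (κ : Fin n → ℕ) : R := ∏ i, u (κ i)

/-- `k(k+1)` -/
noncomputable def aa (k : ℕ) : ℝ := (k:ℝ) * (k + 1)

lemma aa_nonneg (k : ℕ) : 0 ≤ aa k := by unfold aa; positivity

lemma W_succ {n : ℕ} (κ : Fin (n+1) → ℕ) : W κ = u (κ 0) * W (fun i => κ i.succ) := by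
  unfold W; rw [Fin.prod_univ_succ]

lemma Good_W {n : ℕ} (κ : Fin n → ℕ) : Good (W κ) := by
  induction n with
  | zero => unfold W; simpa using Good_one
  | succ n ih => rw [W_succ]; exact Good_u_mul _ _ (ih _)

lemma Cone_W {n : ℕ} (κ : Fin n → ℕ) : Cone (W κ) := by
  induction n with
  | zero => unfold W; simpa using Cone_one
  | succ n ih => rw [W_succ]; exact (Cone.base _).mul (ih _)

lemma V_one : V (1 : R) = 0 := by
  have : (1 : R) = T 0 := rfl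
  rw [this]; unfold V; rw [Lam_T]; simp

lemma V_W {n : ℕ} (κ : Fin n → ℕ) : V (W κ) = (∑ i, aa (κ i)) / 3 := by
  induction n with
  | zero => unfold W; simp [V_one]
  | succ n ih =>
    rw [W_succ, V_u_mul, ih, (Good_W _).mass_eq, Fin.sum_univ_succ]
    unfold aa
    ring

lemma W_zero_sq {n : ℕ} (κ : Fin n → ℕ) : (W κ).coeff 0 ^ 2 * (∑ i, aa (κ i)) ≤ 12 := by
  have := (Good_W κ).var_bound
  rw [V_W] at this
  linarith

/-- The averaging ratio. -/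
noncomputable def th (a S : ℝ) : ℝ := 2 * (a / (a + S))

lemma th_nonneg {a S : ℝ} (ha : 0 ≤ a) (hS : 0 ≤ S) : 0 ≤ th a S := by
  unfold th; positivity

lemma Dom_W3 {n : ℕ} (k : ℕ) (κ₁ κ₂ κ₃ : Fin n → ℕ) :
    Dom ((1 - u k) * (W κ₁ * W κ₂ * W κ₃))
      (36 * (th (aa k) (∑ i, aa (κ₁ i)) + th (aa k) (∑ i, aa (κ₂ i))
        + th (aa k) (∑ i, aa (κ₃ i)))) := by
  have hS : ∀ κ : Fin n → ℕ, 0 ≤ ∑ i, aa (κ i) := fun κ => Finset.sum_nonneg (fun i _ => aa_nonneg _)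
  have t1 := th_nonneg (aa_nonneg k) (hS κ₁)
  have t2 := th_nonneg (aa_nonneg k) (hS κ₂)
  have t3 := th_nonneg (aa_nonneg k) (hS κ₃)
  rcases Nat.eq_zero_or_pos k with rfl | hk
  · rw [u_zero, sub_self, zero_mul]
    exact Dom_zero.mono (by positivity)
  have ha : 0 < aa k := by unfold aa; positivity
  -- big ratio cases
  have big : ∀ S : ℝ, 0 ≤ S → S ≤ aa k → 1 ≤ th (aa k) S := by
    intro S hS0 hS1
    unfold th
    have h : 0 < aa k + S := by linarith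
    rw [← mul_div_assoc, le_div_iff₀ h]
    linarith
  have hd : Dom ((1 - u k) * (W κ₁ * W κ₂ * W κ₃)) 2 := by
    have h1 : ∀ κ : Fin n → ℕ, Dom (W κ) 1 := by
      intro κ
      have := Dom_of_cone (Cone_W κ)
      rwa [(Good_W κ).mass_eq] at this
    have := (Dom_one_sub_u k).mul (((h1 κ₁).mul (h1 κ₂)).mul (h1 κ₃))
    norm_num at this
    exact this
  by_cases c1 : ∑ i, aa (κ₁ i) ≤ aa k
  · apply hd.mono; have := big _ (hS κ₁) c1; linarith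
  by_cases c2 : ∑ i, aa (κ₂ i) ≤ aa k
  · apply hd.mono; have := big _ (hS κ₂) c2; linarith
  by_cases c3 : ∑ i, aa (κ₃ i) ≤ aa k
  · apply hd.mono; have := big _ (hS κ₃) c3; linarith
  push Not at c1 c2 c3
  have small : ∀ κ : Fin n → ℕ, aa k < ∑ i, aa (κ i) →
      3 * aa k * (W κ).coeff 0 ^ 2 ≤ 36 * th (aa k) (∑ i, aa (κ i)) := by
    intro κ hκ
    have h1 := W_zero_sq κ
    have h2 : 0 < ∑ i, aa (κ i) := ha.trans hκ
    have h3 : (W κ).coeff 0 ^ 2 ≤ 12 / (∑ i, aa (κ i)) := by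
      rw [le_div_iff₀ h2]; exact h1
    have h4 : 12 / (∑ i, aa (κ i)) ≤ 24 / (aa k + ∑ i, aa (κ i)) := by
      rw [div_le_div_iff₀ h2 (by linarith)]
      linarith
    calc 3 * aa k * (W κ).coeff 0 ^ 2 ≤ 3 * aa k * (24 / (aa k + ∑ i, aa (κ i))) := by
          apply mul_le_mul_of_nonneg_left (h3.trans h4) (by positivity)
      _ = 36 * th (aa k) (∑ i, aa (κ i)) := by unfold th; ring
  have s1 := small κ₁ c1
  have s2 := small κ₂ c2
  have s3 := small κ₃ c3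
  have hmain := Dom_three_cone k (Cone_W κ₁) (Cone_W κ₂) (Cone_W κ₃)
  apply hmain.mono
  rw [(Good_W κ₁).mass_eq, (Good_W κ₂).mass_eq, (Good_W κ₃).mass_eq]
  have ha' : (k:ℝ) * (k + 1) = aa k := rfl
  rw [ha']
  nlinarith [mul_nonneg ha.le (sq_nonneg ((W κ₁).coeff 0 - (W κ₂).coeff 0)),
    mul_nonneg ha.le (sq_nonneg ((W κ₂).coeff 0 - (W κ₃).coeff 0)),
    mul_nonneg ha.le (sq_nonneg ((W κ₁).coeff 0 - (W κ₃).coeff 0))]

/-! ### Averaging -/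

lemma avg_bound {ι : Type*} [Fintype ι] (p a : ι → ℝ) (hp : ∀ i, 0 ≤ p i) (hp1 : ∑ i, p i = 1)
    (n : ℕ) :
    ∑ l : Fin (n + 1) → ι, (∏ i, p (l i)) * (a (l 0) / ∑ i, a (l i)) ≤ 1 / ((n:ℝ) + 1) := by
  classical
  have hsym : ∀ x : Fin (n + 1),
      ∑ l : Fin (n + 1) → ι, (∏ i, p (l i)) * (a (l 0) / ∑ i, a (l i))
      = ∑ l : Fin (n + 1) → ι, (∏ i, p (l i)) * (a (l x) / ∑ i, a (l i)) := by
    intro x
    refine Fintype.sum_equiv (Equiv.arrowCongr (Equiv.swap 0 x) (Equiv.refl ι)) _ _ ?_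
    intro l
    have e1 : ∀ i, (Equiv.arrowCongr (Equiv.swap 0 x) (Equiv.refl ι)) l i = l (Equiv.swap 0 x i) := by
      intro i; simp [Equiv.arrowCongr]
    simp only [e1]
    rw [Equiv.swap_apply_right]
    have e2 : ∏ i, p (l (Equiv.swap 0 x i)) = ∏ i, p (l i) :=
      Equiv.prod_comp (Equiv.swap 0 x) (fun i => p (l i))
    have e3 : ∑ i, a (l (Equiv.swap 0 x i)) = ∑ i, a (l i) :=
      Equiv.sum_comp (Equiv.swap 0 x) (fun i => a (l i))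
    rw [e2, e3]
  have h1 : ((n:ℝ) + 1) * ∑ l : Fin (n + 1) → ι, (∏ i, p (l i)) * (a (l 0) / ∑ i, a (l i))
      = ∑ x : Fin (n + 1), ∑ l : Fin (n + 1) → ι, (∏ i, p (l i)) * (a (l x) / ∑ i, a (l i)) := by
    rw [← Finset.sum_congr rfl (fun x _ => hsym x)]
    simp
  have h2 : ∑ x : Fin (n + 1), ∑ l : Fin (n + 1) → ι, (∏ i, p (l i)) * (a (l x) / ∑ i, a (l i)) ≤ 1 := by
    rw [Finset.sum_comm]
    have h3 : ∑ l : Fin (n + 1) → ι, ∏ i, p (l i) = 1 := by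
      rw [← Fintype.sum_pow, hp1, one_pow]
    rw [← h3]
    apply Finset.sum_le_sum
    intro l _
    rw [← Finset.mul_sum, ← Finset.sum_div]
    have h4 : (∑ i, a (l i)) / (∑ i, a (l i)) ≤ 1 := div_self_le_one _
    have h5 : 0 ≤ ∏ i, p (l i) := Finset.prod_nonneg (fun i _ => hp _)
    nlinarith
  rw [le_div_iff₀ (by positivity)]
  linarith [h1, h2, mul_comm ((n:ℝ) + 1) (∑ l : Fin (n + 1) → ι, (∏ i, p (l i)) * (a (l 0) / ∑ i, a (l i)))]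

lemma avg_bound' {ι : Type*} [Fintype ι] (p a : ι → ℝ) (hp : ∀ i, 0 ≤ p i) (hp1 : ∑ i, p i = 1)
    (n : ℕ) :
    ∑ j : ι, ∑ κ : Fin n → ι, (p j * ∏ i, p (κ i)) * th (a j) (∑ i, a (κ i)) ≤ 2 / ((n:ℝ) + 1) := by
  have h := avg_bound p a hp hp1 n
  have h2 : ∑ l : Fin (n + 1) → ι, (∏ i, p (l i)) * (a (l 0) / ∑ i, a (l i))
      = ∑ j : ι, ∑ κ : Fin n → ι, (p j * ∏ i, p (κ i)) * (a j / (a j + ∑ i, a (κ i))) := by
    rw [← Fintype.sum_prod_type' (fun (j : ι) (κ : Fin n → ι) =>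
      (p j * ∏ i, p (κ i)) * (a j / (a j + ∑ i, a (κ i))))]
    refine (Fintype.sum_equiv (Fin.consEquiv (fun _ => ι)) _ _ ?_).symm
    rintro ⟨j, κ⟩
    simp [Fin.consEquiv, Fin.prod_univ_succ, Fin.sum_univ_succ]
  rw [h2] at h
  have h3 : ∑ j : ι, ∑ κ : Fin n → ι, (p j * ∏ i, p (κ i)) * th (a j) (∑ i, a (κ i))
      = 2 * ∑ j : ι, ∑ κ : Fin n → ι, (p j * ∏ i, p (κ i)) * (a j / (a j + ∑ i, a (κ i))) := by
    rw [Finset.mul_sum]
    apply Finset.sum_congr rfl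
    intro j _
    rw [Finset.mul_sum]
    apply Finset.sum_congr rfl
    intro κ _
    unfold th
    ring
  rw [h3]
  calc _ ≤ 2 * (1 / ((n:ℝ) + 1)) := by linarith
    _ = 2 / ((n:ℝ) + 1) := by ring

/-! ### The finite mixture -/

section mixture

variable {ι : Type*} [Fintype ι] (p : ι → ℝ) (k : ι → ℕ)

/-- the mixture -/
noncomputable def mix : R := ∑ i, p i • u (k i)

lemma mix_pow (n : ℕ) : (mix p k) ^ n = ∑ κ : Fin n → ι, (∏ i, p (κ i)) • W (fun i => k (κ i)) := by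
  unfold mix
  rw [Fintype.sum_pow]
  apply Finset.sum_congr rfl
  intro κ _
  unfold W
  rw [Finset.prod_smul]

lemma Dom_mix (hp : ∀ i, 0 ≤ p i) (hp1 : ∑ i, p i = 1) : Dom (mix p k) 1 := by
  unfold mix
  have : Dom (∑ i, p i • u (k i)) (∑ i, |p i| * 1) :=
    Dom.sum _ _ _ (fun i _ => (Dom_u (k i)).smul (p i))
  refine this.mono (le_of_eq ?_)
  conv_rhs => rw [← hp1]
  apply Finset.sum_congr rfl
  intro i _
  rw [abs_of_nonneg (hp i), mul_one]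

lemma Dom_mix_pow (hp : ∀ i, 0 ≤ p i) (hp1 : ∑ i, p i = 1) (n : ℕ) : Dom ((mix p k)^n) 1 := by
  induction n with
  | zero => rw [pow_zero]; exact Dom_one
  | succ n ih =>
    rw [pow_succ]
    have := ih.mul (Dom_mix p k hp hp1)
    rwa [one_mul] at this

lemma one_sub_mix (hp1 : ∑ i, p i = 1) : 1 - mix p k = ∑ j, p j • (1 - u (k j)) := by
  unfold mix
  simp only [smul_sub, Finset.sum_sub_distrib, ← Finset.sum_smul, hp1, one_smul]

lemma Dom_key (hp : ∀ i, 0 ≤ p i) (hp1 : ∑ i, p i = 1) (n : ℕ) :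
    Dom ((1 - mix p k) * ((mix p k)^n * (mix p k)^n * (mix p k)^n)) (216 / ((n:ℝ) + 1)) := by
  have hexp : (1 - mix p k) * ((mix p k)^n * (mix p k)^n * (mix p k)^n)
      = ∑ j, ∑ κ₁ : Fin n → ι, ∑ κ₂ : Fin n → ι, ∑ κ₃ : Fin n → ι,
        (p j * (∏ i, p (κ₁ i)) * (∏ i, p (κ₂ i)) * (∏ i, p (κ₃ i))) •
          ((1 - u (k j)) * (W (fun i => k (κ₁ i)) * W (fun i => k (κ₂ i)) * W (fun i => k (κ₃ i)))) := by
    rw [one_sub_mix p k hp1, mix_pow, Finset.sum_mul]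
    apply Finset.sum_congr rfl
    intro j _
    simp only [Finset.sum_mul, Finset.mul_sum]
    apply Finset.sum_congr rfl
    intro κ₁ _
    apply Finset.sum_congr rfl
    intro κ₂ _
    apply Finset.sum_congr rfl
    intro κ₃ _
    simp only [smul_mul_assoc, mul_smul_comm, smul_smul]
    congr 1 <;> ring
  rw [hexp]
  have hd : Dom (∑ j, ∑ κ₁ : Fin n → ι, ∑ κ₂ : Fin n → ι, ∑ κ₃ : Fin n → ι,
        (p j * (∏ i, p (κ₁ i)) * (∏ i, p (κ₂ i)) * (∏ i, p (κ₃ i))) •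
          ((1 - u (k j)) * (W (fun i => k (κ₁ i)) * W (fun i => k (κ₂ i)) * W (fun i => k (κ₃ i)))))
      (∑ j, ∑ κ₁ : Fin n → ι, ∑ κ₂ : Fin n → ι, ∑ κ₃ : Fin n → ι,
        (p j * (∏ i, p (κ₁ i)) * (∏ i, p (κ₂ i)) * (∏ i, p (κ₃ i))) *
        (36 * (th (aa (k j)) (∑ i, aa (k (κ₁ i))) + th (aa (k j)) (∑ i, aa (k (κ₂ i)))
        + th (aa (k j)) (∑ i, aa (k (κ₃ i)))))) := by
    refine Dom.sum _ _ _ (fun j _ => Dom.sum _ _ _ (fun κ₁ _ => Dom.sum _ _ _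
      (fun κ₂ _ => Dom.sum _ _ _ (fun κ₃ _ => ?_))))
    have h1 := (Dom_W3 (k j) (fun i => k (κ₁ i)) (fun i => k (κ₂ i)) (fun i => k (κ₃ i))).smul
      (p j * (∏ i, p (κ₁ i)) * (∏ i, p (κ₂ i)) * (∏ i, p (κ₃ i)))
    have h2 : 0 ≤ p j * (∏ i, p (κ₁ i)) * (∏ i, p (κ₂ i)) * (∏ i, p (κ₃ i)) := by
      have := hp j
      have : ∀ κ : Fin n → ι, 0 ≤ ∏ i, p (κ i) := fun κ => Finset.prod_nonneg (fun i _ => hp _)
      have a1 := this κ₁
      have a2 := this κ₂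
      have a3 := this κ₃
      positivity
    rwa [abs_of_nonneg h2] at h1
  refine hd.mono ?_
  have hsum1 : ∑ κ : Fin n → ι, ∏ i, p (κ i) = 1 := by
    rw [← Fintype.sum_pow, hp1, one_pow]
  have hE := avg_bound' p (fun i => aa (k i)) hp hp1 n
  set E := ∑ j : ι, ∑ κ : Fin n → ι, (p j * ∏ i, p (κ i)) * th (aa (k j)) (∑ i, aa (k (κ i))) with hEdef
  have hfin : (∑ j, ∑ κ₁ : Fin n → ι, ∑ κ₂ : Fin n → ι, ∑ κ₃ : Fin n → ι,
        (p j * (∏ i, p (κ₁ i)) * (∏ i, p (κ₂ i)) * (∏ i, p (κ₃ i))) *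
        (36 * (th (aa (k j)) (∑ i, aa (k (κ₁ i))) + th (aa (k j)) (∑ i, aa (k (κ₂ i)))
        + th (aa (k j)) (∑ i, aa (k (κ₃ i)))))) = 36 * (E + E + E) := by
    have e : ∀ j, (∑ κ₁ : Fin n → ι, ∑ κ₂ : Fin n → ι, ∑ κ₃ : Fin n → ι,
        (p j * (∏ i, p (κ₁ i)) * (∏ i, p (κ₂ i)) * (∏ i, p (κ₃ i))) *
        (36 * (th (aa (k j)) (∑ i, aa (k (κ₁ i))) + th (aa (k j)) (∑ i, aa (k (κ₂ i)))
        + th (aa (k j)) (∑ i, aa (k (κ₃ i)))))) =
        36 * (3 * ∑ κ : Fin n → ι, (p j * ∏ i, p (κ i)) * th (aa (k j)) (∑ i, aa (k (κ i)))) := by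
      intro j
      have e1 : ∀ κ₁ κ₂ κ₃ : Fin n → ι, (p j * (∏ i, p (κ₁ i)) * (∏ i, p (κ₂ i)) * (∏ i, p (κ₃ i))) *
        (36 * (th (aa (k j)) (∑ i, aa (k (κ₁ i))) + th (aa (k j)) (∑ i, aa (k (κ₂ i)))
        + th (aa (k j)) (∑ i, aa (k (κ₃ i)))))
        = 36 * (((p j * ∏ i, p (κ₁ i)) * th (aa (k j)) (∑ i, aa (k (κ₁ i)))) * (∏ i, p (κ₂ i)) * (∏ i, p (κ₃ i))
          + (∏ i, p (κ₁ i)) * ((p j * ∏ i, p (κ₂ i)) * th (aa (k j)) (∑ i, aa (k (κ₂ i)))) * (∏ i, p (κ₃ i))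
          + (∏ i, p (κ₁ i)) * (∏ i, p (κ₂ i)) * ((p j * ∏ i, p (κ₃ i)) * th (aa (k j)) (∑ i, aa (k (κ₃ i))))) := by
        intro κ₁ κ₂ κ₃; ring
      simp only [e1, ← Finset.mul_sum, Finset.sum_add_distrib, ← Finset.sum_mul, hsum1]
      ring
    rw [Finset.sum_congr rfl (fun j _ => e j)]
    rw [← Finset.mul_sum, ← Finset.mul_sum]
    ring
  rw [hfin]
  calc 36 * (E + E + E) = 108 * E := by ring
    _ ≤ 108 * (2 / ((n:ℝ) + 1)) := by gcongr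
    _ = 216 / ((n:ℝ) + 1) := by ring

/-- main finite estimate -/
theorem Dom_main (hp : ∀ i, 0 ≤ p i) (hp1 : ∑ i, p i = 1) (n : ℕ) :
    Dom ((1 - mix p k) * (mix p k)^n) (648 / ((n:ℝ) + 1)) := by
  have h1 := Dom_key p k hp hp1 (n / 3)
  have h2 := h1.mul (Dom_mix_pow p k hp hp1 (n % 3))
  have e : (1 - mix p k) * ((mix p k)^(n/3) * (mix p k)^(n/3) * (mix p k)^(n/3)) * (mix p k)^(n % 3)
      = (1 - mix p k) * (mix p k)^n := by
    rw [mul_assoc, ← pow_add, ← pow_add, ← pow_add]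
    congr 2
    omega
  rw [e, mul_one] at h2
  refine h2.mono ?_
  have h3 : (n:ℝ) + 1 ≤ 3 * (((n/3 : ℕ):ℝ) + 1) := by
    have : n + 1 ≤ 3 * (n/3 + 1) := by omega
    exact_mod_cast this
  rw [div_le_div_iff₀ (by positivity) (by positivity)]
  linarith

/-- main finite estimate, order `m` -/
theorem Dom_main_pow (hp : ∀ i, 0 ≤ p i) (hp1 : ∑ i, p i = 1) (m n : ℕ) :
    Dom ((n:ℝ)^m • ((mix p k)^n * (1 - mix p k)^m)) ((648 * (m:ℝ))^m) := by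
  rcases Nat.eq_zero_or_pos m with rfl | hm
  · simp only [pow_zero, one_smul, mul_one]
    exact Dom_mix_pow p k hp hp1 n
  have h1 := Dom_main p k hp hp1 (n / m)
  have h2 : ∀ j : ℕ, Dom (((1 - mix p k) * (mix p k)^(n/m))^j) ((648 / (((n/m : ℕ):ℝ) + 1))^j) := by
    intro j
    induction j with
    | zero => rw [pow_zero, pow_zero]; exact Dom_one
    | succ j ih => rw [pow_succ, pow_succ]; exact ih.mul h1
  have h3 := (h2 m).mul (Dom_mix_pow p k hp hp1 (n % m))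
  have e : ((1 - mix p k) * (mix p k)^(n/m))^m * (mix p k)^(n % m)
      = (mix p k)^n * (1 - mix p k)^m := by
    rw [mul_pow, ← pow_mul, mul_assoc, ← pow_add, mul_comm]
    congr 2
    rw [mul_comm]
    exact Nat.div_add_mod n m
  rw [e, mul_one] at h3
  have h4 := h3.smul ((n:ℝ)^m)
  refine h4.mono ?_
  rw [abs_of_nonneg (by positivity), ← mul_pow]
  apply pow_le_pow_left₀ (by positivity)
  have h5 : (n:ℝ) ≤ m * (((n/m : ℕ):ℝ) + 1) := by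
    have : n ≤ m * (n/m + 1) := by
      have := Nat.lt_mul_div_succ n hm
      exact this.le
    exact_mod_cast this
  have h6 : (0:ℝ) < ((n/m : ℕ):ℝ) + 1 := by positivity
  rw [← mul_div_assoc, div_le_iff₀ h6]
  nlinarith

end mixture

end Pool.Agent.H44.Ritt
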