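import Mathlib
import Pool.Agent.H44.RittE
import Pool.Agent.H44.RittDefs

set_option autoImplicit false

namespace Pool.Agent.H44.Ritt

open Finset Pool.Agent.H44.RittDefs Filter Topology

/-! ### relating ring elements and convolutions -/

lemma conv_coeff (F G : R) : conv F.coeff G.coeff = (F * G).coeff := by
  funext k
  unfold conv
  rw [coeff_mul_eq, Finsupp.sum, tsum_eq_sum (s := F.coeff.support)]
  · apply Finset.sum_congr rfl
    intro j _
    congr 2
    ring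
  · intro j hj
    rw [Finsupp.notMem_support_iff.mp hj, zero_mul]

lemma delta_eq : delta = (1 : R).coeff := by
  funext k
  rw [coeff_one]; rfl

lemma convPow_coeff (F : R) (n : ℕ) : convPow F.coeff n = (F ^ n).coeff := by
  induction n with
  | zero => rw [pow_zero]; exact delta_eq
  | succ n ih =>
    change conv F.coeff (convPow F.coeff n) = _
    rw [ih, conv_coeff, pow_succ, mul_comm]

lemma delta_sub_coeff (F : R) : (fun j => delta j - F.coeff j) = (1 - F).coeff := by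
  funext j
  rw [delta_eq, AddMonoidAlgebra.coeff_sub, Finsupp.sub_apply]

/-! ### limits -/

lemma summable_conv {A B : ℤ → ℝ} (hA0 : ∀ j, 0 ≤ A j) (hB0 : ∀ j, 0 ≤ B j)
    (hA : Summable A) (hB : Summable B) : Summable (conv A B) := by
  have h1 : Summable (fun x : ℤ × ℤ => A x.1 * B x.2) := hA.mul_of_nonneg hB hA0 hB0
  let e : ℤ × ℤ ≃ ℤ × ℤ :=
    { toFun := fun x => (x.2, x.1 - x.2)
      invFun := fun x => (x.1 + x.2, x.1)
      left_inv := fun x => by ext <;> simp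
      right_inv := fun x => by ext <;> simp }
  have h2 : Summable (fun x : ℤ × ℤ => A x.2 * B (x.1 - x.2)) := (e.summable_iff (f := fun x : ℤ × ℤ => A x.1 * B x.2)).mpr h1
  exact h2.prod

lemma summable_conv_term {A B : ℤ → ℝ} (hA0 : ∀ j, 0 ≤ A j) (hB0 : ∀ j, 0 ≤ B j)
    (hA : Summable A) (hB : Summable B) (k : ℤ) : Summable (fun j => A j * B (k - j)) := by
  obtain ⟨M, hM⟩ : ∃ M, ∀ j, B j ≤ M := ⟨∑' j, B j, fun j => hB.le_tsum j (fun i _ => hB0 i)⟩
  apply Summable.of_nonneg_of_le (fun j => mul_nonneg (hA0 j) (hB0 _))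
    (fun j => mul_le_mul_of_nonneg_left (hM _) (hA0 j)) (hA.mul_right M)

lemma conv_nonneg {A B : ℤ → ℝ} (hA0 : ∀ j, 0 ≤ A j) (hB0 : ∀ j, 0 ≤ B j) (k : ℤ) :
    0 ≤ conv A B k := tsum_nonneg (fun j => mul_nonneg (hA0 j) (hB0 _))

lemma abs_conv_le {a b A B : ℤ → ℝ} (ha : ∀ j, |a j| ≤ A j) (hb : ∀ j, |b j| ≤ B j)
    (hA : Summable A) (hB : Summable B) (k : ℤ) : |conv a b k| ≤ conv A B k := by
  have hA0 : ∀ j, 0 ≤ A j := fun j => (abs_nonneg _).trans (ha j)
  have hB0 : ∀ j, 0 ≤ B j := fun j => (abs_nonneg _).trans (hb j)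
  have hs := summable_conv_term hA0 hB0 hA hB k
  have hle : ∀ j, ‖a j * b (k - j)‖ ≤ A j * B (k - j) := by
    intro j
    rw [norm_mul, Real.norm_eq_abs, Real.norm_eq_abs]
    exact mul_le_mul (ha j) (hb _) (abs_nonneg _) (hA0 j)
  have := tsum_of_norm_bounded hs.hasSum hle
  rwa [Real.norm_eq_abs] at this

lemma summable_delta : Summable delta :=
  summable_of_ne_finset_zero (s := {0}) (fun b hb => by
    simp only [Finset.mem_singleton] at hb
    simp [delta, hb])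

lemma delta_nonneg (j : ℤ) : 0 ≤ delta j := by unfold delta; split_ifs <;> norm_num

lemma convPow_props {A : ℤ → ℝ} (hA0 : ∀ j, 0 ≤ A j) (hA : Summable A) (n : ℕ) :
    (∀ j, 0 ≤ convPow A n j) ∧ Summable (convPow A n) := by
  induction n with
  | zero => exact ⟨delta_nonneg, summable_delta⟩
  | succ n ih => exact ⟨conv_nonneg hA0 ih.1, summable_conv hA0 ih.1 hA ih.2⟩

lemma abs_convPow_le {a A : ℤ → ℝ} (ha : ∀ j, |a j| ≤ A j) (hA : Summable A) (n : ℕ) :
    ∀ k, |convPow a n k| ≤ convPow A n k := by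
  have hA0 : ∀ j, 0 ≤ A j := fun j => (abs_nonneg _).trans (ha j)
  induction n with
  | zero => intro k; exact le_of_eq (abs_of_nonneg (delta_nonneg k))
  | succ n ih => intro k; exact abs_conv_le ha ih hA (convPow_props hA0 hA n).2 k

lemma conv_tendsto {a b : ℕ → ℤ → ℝ} {a' b' A B : ℤ → ℝ} (ha : ∀ N j, |a N j| ≤ A j)
    (hb : ∀ N j, |b N j| ≤ B j) (hA : Summable A) (hB : Summable B)
    (hta : ∀ j, Tendsto (fun N => a N j) atTop (𝓝 (a' j)))
    (htb : ∀ j, Tendsto (fun N => b N j) atTop (𝓝 (b' j))) (k : ℤ) :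
    Tendsto (fun N => conv (a N) (b N) k) atTop (𝓝 (conv a' b' k)) := by
  have hA0 : ∀ j, 0 ≤ A j := fun j => (abs_nonneg _).trans (ha 0 j)
  have hB0 : ∀ j, 0 ≤ B j := fun j => (abs_nonneg _).trans (hb 0 j)
  have hs := summable_conv_term hA0 hB0 hA hB k
  unfold conv
  refine tendsto_tsum_of_dominated_convergence hs (fun j => (hta j).mul (htb _)) ?_
  refine Filter.Eventually.of_forall (fun N j => ?_)
  rw [norm_mul, Real.norm_eq_abs, Real.norm_eq_abs]
  exact mul_le_mul (ha N j) (hb N _) (abs_nonneg _) (hA0 j)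

lemma convPow_tendsto {a : ℕ → ℤ → ℝ} {a' A : ℤ → ℝ} (ha : ∀ N j, |a N j| ≤ A j)
    (hA : Summable A) (hta : ∀ j, Tendsto (fun N => a N j) atTop (𝓝 (a' j))) (n : ℕ) :
    ∀ k, Tendsto (fun N => convPow (a N) n k) atTop (𝓝 (convPow a' n k)) := by
  have hA0 : ∀ j, 0 ≤ A j := fun j => (abs_nonneg _).trans (ha 0 j)
  induction n with
  | zero => intro k; exact tendsto_const_nhds
  | succ n ih =>
    intro k
    exact conv_tendsto ha (fun N j => abs_convPow_le (ha N) hA n j) hA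
      (convPow_props hA0 hA n).2 hta ih k

lemma convC_tendsto {a : ℕ → ℤ → ℝ} {a' A : ℤ → ℝ} (f : ℤ → ℂ) (hf : Summable (fun k => ‖f k‖))
    (ha : ∀ N j, |a N j| ≤ A j) (hA : Summable A)
    (hta : ∀ j, Tendsto (fun N => a N j) atTop (𝓝 (a' j))) (k : ℤ) :
    Tendsto (fun N => convC (a N) f k) atTop (𝓝 (convC a' f k)) := by
  have hA0 : ∀ j, 0 ≤ A j := fun j => (abs_nonneg _).trans (ha 0 j)
  have hs := summable_conv_term hA0 (fun j => norm_nonneg (f j)) hA hf k
  unfold convC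
  refine tendsto_tsum_of_dominated_convergence hs (fun j => ?_) ?_
  · exact ((Complex.continuous_ofReal.tendsto _).comp (hta j)).mul_const _
  refine Filter.Eventually.of_forall (fun N j => ?_)
  rw [norm_mul, Complex.norm_real, Real.norm_eq_abs]
  exact mul_le_mul_of_nonneg_right (ha N j) (norm_nonneg _)

/-! ### truncation -/

section trunc

variable (μ : ℤ → ℝ)

/-- mixing weights of the truncated measure -/
noncomputable def q (N : ℕ) (i : Fin (N + 1)) : ℝ :=
  (2 * ((i : ℕ) : ℝ) + 1) * (μ (i : ℕ) - if (i : ℕ) = N then 0 else μ ((i : ℕ) + 1))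

lemma coeff_sum_u {N : ℕ} (c : Fin (N + 1) → ℝ) (x : ℤ) :
    (∑ i, c i • u (i : ℕ)).coeff x = ∑ i : Fin (N + 1), c i * (if |x| ≤ ((i : ℕ) : ℤ) then 1 / (2 * (((i : ℕ)) : ℝ) + 1) else 0) := by
  rw [AddMonoidAlgebra.coeff_sum, Finsupp.finsetSum_apply]
  apply Finset.sum_congr rfl
  intro i _
  rw [coeff_smul', coeff_u]

lemma telescoping (N : ℕ) (n : ℕ) (hn : n ≤ N) :
    ∑ i ∈ range (N + 1), (if n ≤ i then (μ (i : ℕ) - if i = N then 0 else μ ((i : ℤ) + 1)) else 0) = μ n := by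
  have h : ∀ M : ℕ, n ≤ M → M ≤ N → ∑ i ∈ range M, (if n ≤ i then (μ (i : ℕ) - if i = N then 0 else μ ((i : ℤ) + 1)) else 0) = μ n - μ M := by
    intro M hM hMN
    induction M, hM using Nat.le_induction with
    | base =>
      rw [sub_self]
      apply Finset.sum_eq_zero
      intro i hi
      rw [Finset.mem_range] at hi
      rw [if_neg (by omega)]
    | succ M hM ih =>
      rw [Finset.sum_range_succ, ih (by omega), if_pos hM, if_neg (by omega)]
      push_cast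
      ring
  rw [Finset.sum_range_succ, h N hn le_rfl, if_pos hn, if_pos rfl]
  ring

lemma coeff_q (hs : ∀ n : ℤ, μ (-n) = μ n) (N : ℕ) (x : ℤ) :
    (∑ i, q μ N i • u (i : ℕ)).coeff x = if |x| ≤ (N:ℤ) then μ x else 0 := by
  rw [coeff_sum_u]
  have e : ∀ i : Fin (N + 1), q μ N i * (if |x| ≤ ((i : ℕ) : ℤ) then 1 / (2 * (((i : ℕ)) : ℝ) + 1) else 0)
      = (fun i : ℕ => if x.natAbs ≤ i then (μ (i : ℕ) - if i = N then 0 else μ ((i : ℤ) + 1)) else 0) (i : ℕ) := by
    intro i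
    have hx : (|x| ≤ ((i : ℕ) : ℤ)) ↔ x.natAbs ≤ (i : ℕ) := by
      rw [← Int.natCast_natAbs]; exact Nat.cast_le
    unfold q
    have h0 : (2 * (((i : ℕ)) : ℝ) + 1) ≠ 0 := by positivity
    by_cases h : x.natAbs ≤ (i : ℕ)
    · rw [if_pos (hx.mpr h)]
      simp only [if_pos h]
      field_simp
    · rw [if_neg (fun hh => h (hx.mp hh))]
      simp only [if_neg h, mul_zero]
  rw [Finset.sum_congr rfl (fun i _ => e i)]
  rw [Fin.sum_univ_eq_sum_range (fun i : ℕ => if x.natAbs ≤ i then (μ (i : ℕ) - if i = N then 0 else μ ((i : ℤ) + 1)) else 0) (N + 1)]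
  by_cases hx : x.natAbs ≤ N
  · rw [telescoping μ N x.natAbs hx]
    have : |x| ≤ (N:ℤ) := by rw [← Int.natCast_natAbs]; exact_mod_cast hx
    rw [if_pos this]
    rcases Int.natAbs_eq x with h | h
    · rw [← h]
    · have h' : (x.natAbs : ℤ) = -x := by omega
      rw [h', hs]
  · have : ¬ |x| ≤ (N:ℤ) := by rw [← Int.natCast_natAbs]; exact_mod_cast hx
    rw [if_neg this]
    apply Finset.sum_eq_zero
    intro i hi
    rw [Finset.mem_range] at hi
    rw [if_neg (by omega)]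

lemma sum_q (hs : ∀ n : ℤ, μ (-n) = μ n) (N : ℕ) :
    ∑ i, q μ N i = ∑ x ∈ Icc (-(N:ℤ)) N, μ x := by
  have h1 : mass (∑ i, q μ N i • u (i : ℕ)) = ∑ i, q μ N i := by
    rw [map_sum]
    apply Finset.sum_congr rfl
    intro i _
    rw [map_smul, mass_u, smul_eq_mul, mul_one]
  rw [← h1]
  unfold mass
  rw [Lam_eq_sum _ _ (Icc (-(N:ℤ)) N)]
  · apply Finset.sum_congr rfl
    intro x hx
    rw [Finset.mem_Icc] at hx
    rw [coeff_q μ hs, if_pos (abs_le.mpr hx), mul_one]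
  · intro x hx
    rw [Finset.mem_Icc] at hx
    rw [coeff_q μ hs, if_neg (fun h => hx (abs_le.mp h))]

/-- weights with the missing mass put at `0` -/
noncomputable def pw (N : ℕ) (i : Fin (N + 1)) : ℝ :=
  q μ N i + if i = 0 then 1 - ∑ x ∈ Icc (-(N:ℤ)) N, μ x else 0

variable {μ}

lemma pw_nonneg (h : IsSymmNonincProb μ) (N : ℕ) (i : Fin (N + 1)) : 0 ≤ pw μ N i := by
  unfold pw q
  have h1 : ∑ x ∈ Icc (-(N:ℤ)) N, μ x ≤ 1 :=
    sum_le_hasSum _ (fun j _ => h.nonneg j) h.hasSum_one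
  have h2 : 0 ≤ μ (i : ℕ) - if (i : ℕ) = N then 0 else μ ((i : ℕ) + 1) := by
    split_ifs
    · simpa using h.nonneg _
    · have := h.noninc (i : ℕ); linarith
  have h3 : (0:ℝ) ≤ if i = 0 then 1 - ∑ x ∈ Icc (-(N:ℤ)) N, μ x else 0 := by
    split_ifs <;> linarith
  have h4 := mul_nonneg (by positivity : (0:ℝ) ≤ 2 * ((i : ℕ) : ℝ) + 1) h2
  linarith

lemma sum_pw (h : IsSymmNonincProb μ) (N : ℕ) : ∑ i, pw μ N i = 1 := by
  unfold pw
  rw [Finset.sum_add_distrib, sum_q μ h.symm]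
  simp

/-- truncated measure -/
noncomputable def tr (μ : ℤ → ℝ) (N : ℕ) : R := mix (pw μ N) (fun i => (i : ℕ))

lemma coeff_tr (h : IsSymmNonincProb μ) (N : ℕ) (x : ℤ) :
    (tr μ N).coeff x = (if |x| ≤ (N:ℤ) then μ x else 0)
      + if x = 0 then 1 - ∑ x ∈ Icc (-(N:ℤ)) N, μ x else 0 := by
  unfold tr mix pw
  simp only [add_smul, Finset.sum_add_distrib]
  rw [coeff_add', coeff_q μ h.symm]
  congr 1
  simp only [ite_smul, zero_smul]
  rw [Finset.sum_ite_eq' Finset.univ (0 : Fin (N+1))]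
  simp only [Finset.mem_univ, if_true, Fin.val_zero]
  rw [u_zero, coeff_smul', coeff_one]
  split_ifs <;> simp

lemma abs_tr_le (h : IsSymmNonincProb μ) (N : ℕ) (x : ℤ) : |(tr μ N).coeff x| ≤ μ x + delta x := by
  rw [coeff_tr h]
  have h1 : ∑ x ∈ Icc (-(N:ℤ)) N, μ x ≤ 1 :=
    sum_le_hasSum _ (fun j _ => h.nonneg j) h.hasSum_one
  have h2 : 0 ≤ ∑ x ∈ Icc (-(N:ℤ)) N, μ x := Finset.sum_nonneg (fun i _ => h.nonneg i)
  have h3 := h.nonneg x
  unfold delta
  rw [abs_le]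
  constructor <;> split_ifs <;> linarith

lemma tr_tendsto (h : IsSymmNonincProb μ) (x : ℤ) :
    Tendsto (fun N => (tr μ N).coeff x) atTop (𝓝 (μ x)) := by
  have h1 : Tendsto (fun N : ℕ => ∑ x ∈ Icc (-(N:ℤ)) N, μ x) atTop (𝓝 1) := by
    have hmono : Monotone (fun N : ℕ => Icc (-(N:ℤ)) (N:ℤ)) := by
      intro a b hab
      apply Finset.Icc_subset_Icc <;> omega
    have hex : ∀ x : ℤ, ∃ N : ℕ, x ∈ Icc (-(N:ℤ)) (N:ℤ) := by
      intro x
      refine ⟨x.natAbs, ?_⟩
      rw [Finset.mem_Icc]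
      omega
    exact h.hasSum_one.comp (tendsto_atTop_finset_of_monotone hmono hex)
  have h2 : Tendsto (fun N : ℕ => (if |x| ≤ (N:ℤ) then μ x else 0)
      + if x = 0 then 1 - ∑ x ∈ Icc (-(N:ℤ)) N, μ x else 0) atTop (𝓝 (μ x + if x = 0 then 1 - 1 else 0)) := by
    apply Tendsto.add
    · apply tendsto_const_nhds.congr'
      filter_upwards [eventually_ge_atTop x.natAbs] with N hN
      have : |x| ≤ (N:ℤ) := by rw [← Int.natCast_natAbs]; exact_mod_cast hN
      rw [if_pos this]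
    · split_ifs
      · exact tendsto_const_nhds.sub h1
      · exact tendsto_const_nhds
  simp only [sub_self, ite_self, add_zero] at h2
  refine h2.congr (fun N => (coeff_tr h N x).symm)

end trunc

end Pool.Agent.H44.Ritt
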