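import Mathlib
import Pool.Agent.H44.RittF

set_option autoImplicit false

namespace Pool.Agent.H44.Ritt

open Finset Pool.Agent.H44.RittDefs Filter Topology

/-! ### maximal function -/

lemma Lam_cone_le {H : R} (hH : Cone H) (φ : ℤ → ℝ) (M : ℝ)
    (hM : ∀ r : ℕ, (1 / (2 * (r:ℝ) + 1)) * ∑ s ∈ Icc (-(r:ℤ)) r, φ s ≤ M) :
    Lam φ H ≤ mass H * M := by
  induction hH with
  | base k =>
    rw [mass_u, one_mul]
    refine le_trans (le_of_eq ?_) (hM k)
    unfold u D
    rw [map_smul, map_sum, smul_eq_mul]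
    simp only [Lam_T]
  | zero => simp
  | add F G _ _ h1 h2 => rw [map_add, map_add, add_mul]; exact add_le_add h1 h2
  | smul c F hc _ h =>
    rw [map_smul, map_smul, smul_eq_mul, smul_eq_mul, mul_assoc]
    exact mul_le_mul_of_nonneg_left h hc

lemma norm_convC_le {F : R} {c : ℝ} (hF : Dom F c) (f : ℤ → ℂ) (k : ℤ) (M : ℝ) (hM0 : 0 ≤ M)
    (hM : ∀ r : ℕ, (1 / (2 * (r:ℝ) + 1)) * ∑ s ∈ Icc (-(r:ℤ)) r, ‖f (k - s)‖ ≤ M) :
    ‖convC F.coeff f k‖ ≤ c * M := by
  obtain ⟨H, hH, hm, hb⟩ := hF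
  have h1 := Lam_cone_le hH (fun s => ‖f (k - s)‖) M hM
  have hsub : F.coeff.support ⊆ H.coeff.support := by
    intro y hy
    rw [Finsupp.mem_support_iff] at hy ⊢
    intro h0
    have := hb y
    rw [h0] at this
    exact hy (abs_nonpos_iff.mp this)
  have h2 : convC F.coeff f k = ∑ j ∈ H.coeff.support, (F.coeff j : ℂ) * f (k - j) := by
    unfold convC
    rw [tsum_eq_sum]
    intro j hj
    have : j ∉ F.coeff.support := fun h => hj (hsub h)
    rw [Finsupp.notMem_support_iff.mp this]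
    simp
  rw [h2]
  calc ‖∑ j ∈ H.coeff.support, (F.coeff j : ℂ) * f (k - j)‖
      ≤ ∑ j ∈ H.coeff.support, ‖(F.coeff j : ℂ) * f (k - j)‖ := norm_sum_le _ _
    _ ≤ ∑ j ∈ H.coeff.support, H.coeff j * ‖f (k - j)‖ := by
        apply Finset.sum_le_sum
        intro j _
        rw [norm_mul, Complex.norm_real, Real.norm_eq_abs]
        exact mul_le_mul_of_nonneg_right (hb j) (norm_nonneg _)
    _ = Lam (fun s => ‖f (k - s)‖) H := by
        rw [Lam_eq_sum _ _ H.coeff.support]
        intro x hx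
        exact Finsupp.notMem_support_iff.mp hx
    _ ≤ mass H * M := h1
    _ ≤ c * M := mul_le_mul_of_nonneg_right hm hM0

lemma vitali (r : ℤ → ℕ) : ∀ (n : ℕ) (F : Finset ℤ), F.card = n →
    ∃ G ⊆ F, (∀ k ∈ G, ∀ l ∈ G, k ≠ l →
        Disjoint (Icc (k - (r k : ℤ)) (k + r k)) (Icc (l - (r l : ℤ)) (l + r l)))
      ∧ F.card ≤ ∑ k ∈ G, 2 * (2 * r k + 1) := by
  classical
  intro n
  induction n using Nat.strong_induction_on with
  | _ n ih =>
    intro F hF
    rcases F.eq_empty_or_nonempty with rfl | hne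
    · exact ⟨∅, Finset.Subset.refl _, by simp, by simp⟩
    obtain ⟨k₀, hk₀, hmax⟩ := Finset.exists_max_image F r hne
    set F' := F.filter (fun k => Disjoint (Icc (k - (r k : ℤ)) (k + r k)) (Icc (k₀ - (r k₀ : ℤ)) (k₀ + r k₀))) with hF'
    have hk₀' : k₀ ∉ F' := by
      intro h
      have := (Finset.mem_filter.mp h).2
      rw [Finset.disjoint_left] at this
      exact this (a := k₀) (by rw [Finset.mem_Icc]; omega) (by rw [Finset.mem_Icc]; omega)
    have hlt : F'.card < n := by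
      rw [← hF]
      apply Finset.card_lt_card
      refine ⟨Finset.filter_subset _ _, fun h => hk₀' (h hk₀)⟩
    obtain ⟨G, hG, hdisj, hcard⟩ := ih F'.card hlt F' rfl
    have hk₀G : k₀ ∉ G := fun h => hk₀' (hG h)
    refine ⟨insert k₀ G, ?_, ?_, ?_⟩
    · intro x hx
      rcases Finset.mem_insert.mp hx with rfl | hx
      · exact hk₀
      · exact Finset.filter_subset _ _ (hG hx)
    · intro k hk l hl hkl
      rcases Finset.mem_insert.mp hk with e1 | e1 <;> rcases Finset.mem_insert.mp hl with e2 | e2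
      · exact absurd (e1.trans e2.symm) hkl
      · rw [e1]; exact ((Finset.mem_filter.mp (hG e2)).2).symm
      · rw [e2]; exact (Finset.mem_filter.mp (hG e1)).2
      · exact hdisj k e1 l e2 hkl
    · rw [Finset.sum_insert hk₀G]
      have h1 : F.card = F'.card + (F.filter (fun k => ¬ Disjoint (Icc (k - (r k : ℤ)) (k + r k)) (Icc (k₀ - (r k₀ : ℤ)) (k₀ + r k₀)))).card := by
        rw [hF', Finset.card_filter_add_card_filter_not]
      have h2 : (F.filter (fun k => ¬ Disjoint (Icc (k - (r k : ℤ)) (k + r k)) (Icc (k₀ - (r k₀ : ℤ)) (k₀ + r k₀)))).card ≤ 2 * (2 * r k₀ + 1) := by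
        have hs : (F.filter (fun k => ¬ Disjoint (Icc (k - (r k : ℤ)) (k + r k)) (Icc (k₀ - (r k₀ : ℤ)) (k₀ + r k₀)))) ⊆ Icc (k₀ - 2 * (r k₀ : ℤ)) (k₀ + 2 * r k₀) := by
          intro k hk
          obtain ⟨hkF, hkd⟩ := Finset.mem_filter.mp hk
          rw [Finset.not_disjoint_iff] at hkd
          obtain ⟨a, ha1, ha2⟩ := hkd
          rw [Finset.mem_Icc] at ha1 ha2 ⊢
          have := hmax k hkF
          omega
        refine (Finset.card_le_card hs).trans ?_
        rw [Int.card_Icc]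
        omega
      omega

lemma weak_finset (g : ℤ → ℝ) (hg0 : ∀ k, 0 ≤ g k) (hg : Summable g) (t : ℝ)
    (F : Finset ℤ) (hF : ∀ k ∈ F, ∃ r : ℕ, t < (1 / (2 * (r:ℝ) + 1)) * ∑ s ∈ Icc (-(r:ℤ)) r, g (k - s)) :
    t * F.card ≤ 2 * ∑' k, g k := by
  classical
  have hT : 0 ≤ ∑' k, g k := tsum_nonneg hg0
  by_cases ht0 : t ≤ 0
  · have : t * F.card ≤ 0 := mul_nonpos_of_nonpos_of_nonneg ht0 (Nat.cast_nonneg _)
    linarith
  push Not at ht0
  have hch : ∃ r : ℤ → ℕ, ∀ k ∈ F, t < (1 / (2 * (r k:ℝ) + 1)) * ∑ s ∈ Icc (-(r k:ℤ)) (r k), g (k - s) := by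
    refine ⟨fun k => if h : k ∈ F then (hF k h).choose else 0, ?_⟩
    intro k hk
    simp only [dif_pos hk]
    exact (hF k hk).choose_spec
  obtain ⟨r, hr⟩ := hch
  obtain ⟨G, hG, hdisj, hcard⟩ := vitali r F.card F rfl
  have h1 : ∀ k ∈ G, t * (2 * (r k : ℝ) + 1) ≤ ∑ j ∈ Icc (k - (r k : ℤ)) (k + r k), g j := by
    intro k hk
    have h := hr k (hG hk)
    have h0 : (0:ℝ) < 2 * (r k : ℝ) + 1 := by positivity
    have e : ∑ s ∈ Icc (-(r k:ℤ)) (r k), g (k - s) = ∑ j ∈ Icc (k - (r k : ℤ)) (k + r k), g j := by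
      refine Finset.sum_bij (fun s _ => k - s) ?_ ?_ ?_ ?_
      · intro s hs; rw [Finset.mem_Icc] at hs ⊢; omega
      · intro a _ b _ hab; omega
      · intro j hj
        rw [Finset.mem_Icc] at hj
        exact ⟨k - j, by rw [Finset.mem_Icc]; omega, by ring⟩
      · intro s _; rfl
    rw [e] at h
    have h2 : t * (2 * (r k : ℝ) + 1) < (1 / (2 * (r k:ℝ) + 1)) * (∑ j ∈ Icc (k - (r k : ℤ)) (k + r k), g j) * (2 * (r k : ℝ) + 1) :=
      mul_lt_mul_of_pos_right h h0
    have h3 : (1 / (2 * (r k:ℝ) + 1)) * (∑ j ∈ Icc (k - (r k : ℤ)) (k + r k), g j) * (2 * (r k : ℝ) + 1)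
        = ∑ j ∈ Icc (k - (r k : ℤ)) (k + r k), g j := by
      field_simp
    rw [h3] at h2
    exact h2.le
  have h2 : ∑ k ∈ G, ∑ j ∈ Icc (k - (r k : ℤ)) (k + r k), g j ≤ ∑' k, g k := by
    rw [← Finset.sum_biUnion]
    · exact hg.sum_le_tsum _ (fun i _ => hg0 i)
    · intro k hk l hl hkl
      exact hdisj k hk l hl hkl
  have h3 : (F.card : ℝ) ≤ ∑ k ∈ G, 2 * (2 * (r k : ℝ) + 1) := by
    exact_mod_cast hcard
  calc t * F.card ≤ t * ∑ k ∈ G, 2 * (2 * (r k : ℝ) + 1) := mul_le_mul_of_nonneg_left h3 ht0.le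
    _ = 2 * ∑ k ∈ G, t * (2 * (r k : ℝ) + 1) := by
        rw [Finset.mul_sum, Finset.mul_sum]
        apply Finset.sum_congr rfl
        intro k _
        ring
    _ ≤ 2 * ∑ k ∈ G, ∑ j ∈ Icc (k - (r k : ℤ)) (k + r k), g j := by
        apply mul_le_mul_of_nonneg_left (Finset.sum_le_sum h1) (by norm_num)
    _ ≤ 2 * ∑' k, g k := by linarith

/-! ### final results -/

/-- Kernel convergence. -/
lemma kernel_tendsto {μ : ℤ → ℝ} (h : IsSymmNonincProb μ) (n m : ℕ) (j : ℤ) :
    Tendsto (fun N => ((tr μ N)^n * (1 - tr μ N)^m).coeff j) atTop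
      (𝓝 (conv (convPow μ n) (convPow (fun j => delta j - μ j) m) j)) := by
  have hA : Summable (fun j => μ j + delta j) := h.hasSum_one.summable.add summable_delta
  have hA0 : ∀ j, 0 ≤ μ j + delta j := fun j => add_nonneg (h.nonneg j) (delta_nonneg j)
  have hB : Summable (fun j => delta j + (μ j + delta j)) := summable_delta.add hA
  have hB0 : ∀ j, 0 ≤ delta j + (μ j + delta j) := fun j => add_nonneg (delta_nonneg j) (hA0 j)
  have hb : ∀ N j, |(1 - tr μ N).coeff j| ≤ delta j + (μ j + delta j) := by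
    intro N j
    rw [← delta_sub_coeff]
    refine (abs_sub _ _).trans ?_
    rw [abs_of_nonneg (delta_nonneg j)]
    have := abs_tr_le h N j
    linarith
  have htb : ∀ j, Tendsto (fun N => (1 - tr μ N).coeff j) atTop (𝓝 (delta j - μ j)) := by
    intro j
    have := (tr_tendsto h j).const_sub (delta j)
    refine this.congr (fun N => ?_)
    rw [← delta_sub_coeff]
  have e : ∀ N, ((tr μ N)^n * (1 - tr μ N)^m).coeff
      = conv (convPow (tr μ N).coeff n) (convPow (1 - tr μ N).coeff m) := by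
    intro N
    rw [convPow_coeff, convPow_coeff, conv_coeff]
  simp only [e]
  exact conv_tendsto
    (fun N j => abs_convPow_le (abs_tr_le h N) hA n j)
    (fun N j => abs_convPow_le (hb N) hB m j)
    (convPow_props hA0 hA n).2 (convPow_props hB0 hB m).2
    (convPow_tendsto (abs_tr_le h) hA (tr_tendsto h) n)
    (convPow_tendsto hb hB htb m) j

lemma kernel_dominated {μ : ℤ → ℝ} (h : IsSymmNonincProb μ) (n m : ℕ) :
    ∃ A : ℤ → ℝ, Summable A ∧ ∀ N j, |((tr μ N)^n * (1 - tr μ N)^m).coeff j| ≤ A j := by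
  have hA : Summable (fun j => μ j + delta j) := h.hasSum_one.summable.add summable_delta
  have hA0 : ∀ j, 0 ≤ μ j + delta j := fun j => add_nonneg (h.nonneg j) (delta_nonneg j)
  have hB : Summable (fun j => delta j + (μ j + delta j)) := summable_delta.add hA
  have hB0 : ∀ j, 0 ≤ delta j + (μ j + delta j) := fun j => add_nonneg (delta_nonneg j) (hA0 j)
  have hb : ∀ N j, |(1 - tr μ N).coeff j| ≤ delta j + (μ j + delta j) := by
    intro N j
    rw [← delta_sub_coeff]
    refine (abs_sub _ _).trans ?_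
    rw [abs_of_nonneg (delta_nonneg j)]
    have := abs_tr_le h N j
    linarith
  refine ⟨conv (convPow (fun j => μ j + delta j) n) (convPow (fun j => delta j + (μ j + delta j)) m),
    summable_conv (convPow_props hA0 hA n).1 (convPow_props hB0 hB m).1
      (convPow_props hA0 hA n).2 (convPow_props hB0 hB m).2, ?_⟩
  intro N j
  rw [← conv_coeff, ← convPow_coeff, ← convPow_coeff]
  exact abs_conv_le (abs_convPow_le (abs_tr_le h N) hA n) (abs_convPow_le (hb N) hB m)
    (convPow_props hA0 hA n).2 (convPow_props hB0 hB m).2 j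

/-- pointwise bound by averages -/
lemma pointwise_bound {μ : ℤ → ℝ} (h : IsSymmNonincProb μ) (n m : ℕ) (f : ℤ → ℂ)
    (hf : Summable (fun k => ‖f k‖)) (k : ℤ) (M : ℝ) (hM0 : 0 ≤ M)
    (hM : ∀ r : ℕ, (1 / (2 * (r:ℝ) + 1)) * ∑ s ∈ Icc (-(r:ℤ)) r, ‖f (k - s)‖ ≤ M) :
    (n:ℝ)^m * ‖convC (conv (convPow μ n) (convPow (fun j => delta j - μ j) m)) f k‖
      ≤ (648 * (m:ℝ))^m * M := by
  obtain ⟨A, hA, hbd⟩ := kernel_dominated h n m
  have h1 := convC_tendsto f hf hbd hA (kernel_tendsto h n m) k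
  have h2 := (h1.norm).const_mul ((n:ℝ)^m)
  refine le_of_tendsto h2 (Filter.Eventually.of_forall (fun N => ?_))
  have h3 := Dom_main_pow (pw μ N) (fun i => (i : ℕ)) (pw_nonneg h N) (sum_pw h N) m n
  have h4 := norm_convC_le h3 f k M hM0 hM
  have e : convC ((n:ℝ)^m • ((mix (pw μ N) fun i => (i : ℕ))^n * (1 - mix (pw μ N) fun i => (i : ℕ))^m)).coeff f k
      = ((n:ℝ)^m : ℝ) * convC ((tr μ N)^n * (1 - tr μ N)^m).coeff f k := by
    unfold convC
    rw [← tsum_mul_left]
    apply tsum_congr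
    intro j
    rw [coeff_smul']
    unfold tr
    push_cast
    ring
  rw [e, norm_mul, Complex.norm_real, Real.norm_eq_abs, abs_of_nonneg (by positivity)] at h4
  exact h4

/-- Ritt property, kernel estimate -/
theorem ritt_main {μ : ℤ → ℝ} (h : IsSymmNonincProb μ) (n : ℕ) :
    Summable (fun k : ℤ => |convPow μ n k - convPow μ (n + 1) k|) ∧
      ∑' k : ℤ, |convPow μ n k - convPow μ (n + 1) k| ≤ 648 / ((n:ℝ) + 1) := by
  have hA : Summable (fun j => μ j + delta j) := h.hasSum_one.summable.add summable_delta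
  have hfin : ∀ t : Finset ℤ, ∑ k ∈ t, |convPow μ n k - convPow μ (n + 1) k| ≤ 648 / ((n:ℝ) + 1) := by
    intro t
    have hlim : Tendsto (fun N => ∑ k ∈ t, |(convPow (tr μ N).coeff n k - convPow (tr μ N).coeff (n + 1) k)|) atTop
        (𝓝 (∑ k ∈ t, |convPow μ n k - convPow μ (n + 1) k|)) := by
      apply tendsto_finsetSum
      intro k _
      exact ((convPow_tendsto (abs_tr_le h) hA (tr_tendsto h) n k).sub
        (convPow_tendsto (abs_tr_le h) hA (tr_tendsto h) (n + 1) k)).abs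
    refine le_of_tendsto hlim (Filter.Eventually.of_forall (fun N => ?_))
    have hd := Dom_main (pw μ N) (fun i => (i : ℕ)) (pw_nonneg h N) (sum_pw h N) n
    obtain ⟨H, hH, hm, hb⟩ := hd
    have e : ∀ k, convPow (tr μ N).coeff n k - convPow (tr μ N).coeff (n + 1) k
        = ((1 - mix (pw μ N) fun i => (i : ℕ)) * (mix (pw μ N) fun i => (i : ℕ))^n).coeff k := by
      intro k
      rw [convPow_coeff, convPow_coeff, ← Finsupp.sub_apply, ← AddMonoidAlgebra.coeff_sub]
      congr 2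
      unfold tr
      ring
    calc ∑ k ∈ t, |(convPow (tr μ N).coeff n k - convPow (tr μ N).coeff (n + 1) k)|
        ≤ ∑ k ∈ t, H.coeff k := by
          apply Finset.sum_le_sum
          intro k _
          rw [e k]
          exact hb k
      _ ≤ ∑ k ∈ t ∪ H.coeff.support, H.coeff k := by
          apply Finset.sum_le_sum_of_subset_of_nonneg Finset.subset_union_left
          intro k _ _
          exact hH.nonneg k
      _ = mass H := by
          unfold mass
          rw [Lam_eq_sum _ _ (t ∪ H.coeff.support)]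
          · simp
          · intro x hx
            rw [Finset.mem_union, not_or] at hx
            exact Finsupp.notMem_support_iff.mp hx.2
      _ ≤ 648 / ((n:ℝ) + 1) := hm
  have hs : Summable (fun k : ℤ => |convPow μ n k - convPow μ (n + 1) k|) :=
    summable_of_sum_le (fun k => abs_nonneg _) hfin
  exact ⟨hs, Real.tsum_le_of_sum_le (fun k => abs_nonneg _) hfin⟩

/-- The Ritt property with the universal constant. -/
theorem ritt {μ : ℤ → ℝ} (h : IsSymmNonincProb μ) : RittWith μ 648 := by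
  intro n _
  obtain ⟨h1, h2⟩ := ritt_main h n
  refine ⟨h1, ?_⟩
  have h3 : (n:ℝ) * (648 / ((n:ℝ) + 1)) ≤ 648 := by
    rw [← mul_div_assoc, div_le_iff₀ (by positivity)]
    nlinarith [(Nat.cast_nonneg n : (0:ℝ) ≤ n)]
  exact (mul_le_mul_of_nonneg_left h2 (Nat.cast_nonneg n)).trans h3

/-- weak type -/
theorem weak_type {μ : ℤ → ℝ} (h : IsSymmNonincProb μ) (m : ℕ) :
    WeakTypeWith μ m (4 * (648 * (m:ℝ) + 1)^m) := by
  classical
  intro f hf t ht
  set C : ℝ := (648 * (m:ℝ) + 1)^m with hC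
  have hCpos : 0 < C := by positivity
  have hCle : (648 * (m:ℝ))^m ≤ C := by
    apply pow_le_pow_left₀ (by positivity)
    linarith
  set S : Set ℤ := {k : ℤ | ENNReal.ofReal t ≤ maximalFn μ m f k} with hS
  have hmem : ∀ k ∈ S, ∃ r : ℕ, t / (2 * C) < (1 / (2 * (r:ℝ) + 1)) * ∑ s ∈ Icc (-(r:ℤ)) r, ‖f (k - s)‖ := by
    intro k hk
    by_contra hcon
    push Not at hcon
    have hM0 : 0 ≤ t / (2 * C) := by positivity
    have hle : maximalFn μ m f k ≤ ENNReal.ofReal (t / 2) := by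
      unfold maximalFn
      refine iSup_le (fun n => iSup_le (fun _ => ?_))
      apply ENNReal.ofReal_le_ofReal
      refine (pointwise_bound h n m f hf k (t / (2 * C)) hM0 hcon).trans ?_
      calc (648 * (m:ℝ))^m * (t / (2 * C)) ≤ C * (t / (2 * C)) :=
            mul_le_mul_of_nonneg_right hCle hM0
        _ = t / 2 := by field_simp
    have h2 : ENNReal.ofReal t ≤ ENNReal.ofReal (t / 2) := le_trans hk hle
    rw [ENNReal.ofReal_le_ofReal_iff (by linarith)] at h2
    linarith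
  have hT : 0 ≤ ∑' k, ‖f k‖ := tsum_nonneg (fun k => norm_nonneg _)
  have hfinset : ∀ F : Finset ℤ, (↑F : Set ℤ) ⊆ S → t / (2 * C) * F.card ≤ 2 * ∑' k, ‖f k‖ := by
    intro F hF
    exact weak_finset (fun k => ‖f k‖) (fun k => norm_nonneg _) hf _ F (fun k hk => hmem k (hF hk))
  have hSfin : S.Finite := by
    by_contra hinf
    obtain ⟨N, hN⟩ := exists_nat_gt (2 * (∑' k, ‖f k‖) / (t / (2 * C)))
    obtain ⟨F, hF, hFc⟩ := Set.Infinite.exists_subset_card_eq hinf N
    have h1 := hfinset F hF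
    rw [hFc] at h1
    have h2 : 0 < t / (2 * C) := by positivity
    rw [div_lt_iff₀ h2] at hN
    linarith
  refine ⟨hSfin, ?_⟩
  have h1 := hfinset hSfin.toFinset (by simp)
  rw [← Set.ncard_eq_toFinset_card S hSfin] at h1
  have h2 : t * (S.ncard : ℝ) = 2 * C * (t / (2 * C) * (S.ncard : ℝ)) := by field_simp
  rw [h2]
  calc 2 * C * (t / (2 * C) * (S.ncard : ℝ)) ≤ 2 * C * (2 * ∑' k, ‖f k‖) :=
        mul_le_mul_of_nonneg_left h1 (by positivity)
    _ = 4 * C * ∑' k, ‖f k‖ := by ring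

end Pool.Agent.H44.Ritt
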